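import Pool.Agent.Lib.MP_0c0e10_co.Defs

/-!
Integer tests for pairs of straight segments.
-/

set_option autoImplicit false
open Set

namespace Pool.Agent.Lib.MP_0c0e10_co

abbrev Pt : Type := ℤ × ℤ

noncomputable def toC (p : Pt) : ℂ := ⟨p.1, p.2⟩

lemma toC_inj : Function.Injective toC := by
  rintro ⟨a, b⟩ ⟨c, d⟩ h
  have h1 := congrArg Complex.re h
  have h2 := congrArg Complex.im h
  simp only [toC, Int.cast_inj] at h1 h2
  rw [h1, h2]

/-- the closed segment between two integer points -/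
def sg (a b : Pt) : Set ℂ := segment ℝ (toC a) (toC b)

lemma mem_sg {a b : Pt} {z : ℂ} : z ∈ sg a b ↔ ∃ s : ℝ, 0 ≤ s ∧ s ≤ 1 ∧
    z.re = a.1 + s * (b.1 - a.1) ∧ z.im = a.2 + s * (b.2 - a.2) := by
  rw [sg, segment_eq_image']
  constructor
  · rintro ⟨s, ⟨h0, h1⟩, rfl⟩
    exact ⟨s, h0, h1, by simp [toC], by simp [toC]⟩
  · rintro ⟨s, h0, h1, h2, h3⟩
    exact ⟨s, ⟨h0, h1⟩, Complex.ext (by simp [toC, h2]) (by simp [toC, h3])⟩

lemma sg_symm (a b : Pt) : sg a b = sg b a := segment_symm _ _ _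

lemma sg_closed (a b : Pt) : IsClosed (sg a b) := by
  rw [sg, ← Path.range_segment]
  exact (isCompact_range (Path.segment _ _).continuous).isClosed

lemma left_mem_sg (a b : Pt) : toC a ∈ sg a b := left_mem_segment _ _ _
lemma right_mem_sg (a b : Pt) : toC b ∈ sg a b := right_mem_segment _ _ _

def ori (a b c : Pt) : ℤ := (b.1 - a.1) * (c.2 - a.2) - (b.2 - a.2) * (c.1 - a.1)

def box (a b c d : ℤ) : Bool :=
  (decide (a < c) && decide (a < d) && decide (b < c) && decide (b < d)) ||
  (decide (c < a) && decide (c < b) && decide (d < a) && decide (d < b))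

def disj (a b c d : Pt) : Bool :=
  box a.1 b.1 c.1 d.1 || box a.2 b.2 c.2 d.2 ||
    decide (0 < ori a b c * ori a b d) || decide (0 < ori c d a * ori c d b)

def shared (a b c d : Pt) : Bool :=
  decide (a = c) && (decide (ori a b d ≠ 0) ||
    decide ((b.1 - a.1) * (d.1 - a.1) + (b.2 - a.2) * (d.2 - a.2) < 0))

def cross (a b c d : Pt) : Bool :=
  decide (ori a b c * ori a b d < 0) && decide (ori c d a * ori c d b < 0)

lemma box_spec {a b c d : ℤ} (h : box a b c d = true) {s t : ℝ} (h0 : 0 ≤ s) (h1 : s ≤ 1)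
    (h2 : 0 ≤ t) (h3 : t ≤ 1) : (a : ℝ) + s * (b - a) ≠ c + t * (d - c) := by
  simp only [box, Bool.or_eq_true, Bool.and_eq_true, decide_eq_true_eq] at h
  intro e
  rcases h with ⟨⟨⟨k1, k2⟩, k3⟩, k4⟩ | ⟨⟨⟨k1, k2⟩, k3⟩, k4⟩
  · have k1 : (a : ℝ) + 1 ≤ c := by exact_mod_cast k1
    have k2 : (a : ℝ) + 1 ≤ d := by exact_mod_cast k2
    have k3 : (b : ℝ) + 1 ≤ c := by exact_mod_cast k3
    have k4 : (b : ℝ) + 1 ≤ d := by exact_mod_cast k4
    nlinarith [mul_nonneg (mul_nonneg h0 h2) (sub_nonneg.2 k4),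
      mul_nonneg (mul_nonneg h0 (sub_nonneg.2 h3)) (sub_nonneg.2 k3),
      mul_nonneg (mul_nonneg (sub_nonneg.2 h1) h2) (sub_nonneg.2 k2),
      mul_nonneg (mul_nonneg (sub_nonneg.2 h1) (sub_nonneg.2 h3)) (sub_nonneg.2 k1)]
  · have k1 : (c : ℝ) + 1 ≤ a := by exact_mod_cast k1
    have k2 : (c : ℝ) + 1 ≤ b := by exact_mod_cast k2
    have k3 : (d : ℝ) + 1 ≤ a := by exact_mod_cast k3
    have k4 : (d : ℝ) + 1 ≤ b := by exact_mod_cast k4
    nlinarith [mul_nonneg (mul_nonneg h0 h2) (sub_nonneg.2 k4),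
      mul_nonneg (mul_nonneg h0 (sub_nonneg.2 h3)) (sub_nonneg.2 k2),
      mul_nonneg (mul_nonneg (sub_nonneg.2 h1) h2) (sub_nonneg.2 k3),
      mul_nonneg (mul_nonneg (sub_nonneg.2 h1) (sub_nonneg.2 h3)) (sub_nonneg.2 k1)]

/-- a common point kills the interpolated orientation -/
lemma ori_eq {a b c d : Pt} {s t : ℝ}
    (h1 : (a.1 : ℝ) + s * (b.1 - a.1) = c.1 + t * (d.1 - c.1))
    (h2 : (a.2 : ℝ) + s * (b.2 - a.2) = c.2 + t * (d.2 - c.2)) :
    (1 - t) * (ori a b c : ℝ) + t * (ori a b d : ℝ) = 0 := by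
  simp only [ori]
  push_cast
  linear_combination (-((b.1 : ℝ) - a.1)) * h2 + ((b.2 : ℝ) - a.2) * h1

lemma same_sign {X Y t : ℝ} (h : 0 < X * Y) (h0 : 0 ≤ t) (h1 : t ≤ 1) :
    (1 - t) * X + t * Y ≠ 0 := by
  intro e
  rcases pos_and_pos_or_neg_and_neg_of_mul_pos h with ⟨k1, k2⟩ | ⟨k1, k2⟩
  · rcases h1.eq_or_lt with rfl | h1
    · linarith
    · nlinarith [mul_pos (sub_pos.2 h1) k1, mul_nonneg h0 k2.le]
  · rcases h1.eq_or_lt with rfl | h1
    · linarith
    · nlinarith [mul_pos (sub_pos.2 h1) (neg_pos.2 k1), mul_nonneg h0 (neg_pos.2 k2).le]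

lemma disj_spec {a b c d : Pt} (h : disj a b c d = true) : Disjoint (sg a b) (sg c d) := by
  rw [disjoint_left]
  intro z hz hz'
  obtain ⟨s, s0, s1, s2, s3⟩ := mem_sg.1 hz
  obtain ⟨t, t0, t1, t2, t3⟩ := mem_sg.1 hz'
  simp only [disj, Bool.or_eq_true, decide_eq_true_eq] at h
  rcases h with ((h | h) | h) | h
  · exact box_spec h s0 s1 t0 t1 (s2.symm.trans t2)
  · exact box_spec h s0 s1 t0 t1 (s3.symm.trans t3)
  · exact same_sign (by exact_mod_cast h) t0 t1
      (ori_eq (s2.symm.trans t2) (s3.symm.trans t3))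
  · exact same_sign (by exact_mod_cast h) s0 s1
      (ori_eq (t2.symm.trans s2) (t3.symm.trans s3))

lemma shared_spec {a b c d : Pt} (h : shared a b c d = true) :
    sg a b ∩ sg c d ⊆ {toC a} := by
  simp only [shared, Bool.or_eq_true, Bool.and_eq_true, decide_eq_true_eq] at h
  obtain ⟨rfl, h⟩ := h
  rintro z ⟨hz, hz'⟩
  obtain ⟨s, s0, s1, s2, s3⟩ := mem_sg.1 hz
  obtain ⟨t, t0, t1, t2, t3⟩ := mem_sg.1 hz'
  have e1 : s * ((b.1 : ℝ) - a.1) = t * (d.1 - a.1) := by linarith
  have e2 : s * ((b.2 : ℝ) - a.2) = t * (d.2 - a.2) := by linarith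
  have ht : t = 0 := by
    rcases h with h | h
    · have := ori_eq (s2.symm.trans t2) (s3.symm.trans t3)
      have h0 : ori a b a = 0 := by simp [ori]
      rw [h0] at this
      have h' : (ori a b d : ℝ) ≠ 0 := by exact_mod_cast h
      simpa [h'] using this
    · have h' : ((b.1 : ℝ) - a.1) * (d.1 - a.1) + (b.2 - a.2) * (d.2 - a.2) < 0 := by
        exact_mod_cast h
      have : t * (((b.1 : ℝ) - a.1) * (d.1 - a.1) + (b.2 - a.2) * (d.2 - a.2)) =
          s * (((b.1 : ℝ) - a.1) ^ 2 + ((b.2 : ℝ) - a.2) ^ 2) := by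
        linear_combination (-((b.1 : ℝ) - a.1)) * e1 - ((b.2 : ℝ) - a.2) * e2
      by_contra hne
      have tp : 0 < t := lt_of_le_of_ne t0 (Ne.symm hne)
      have := mul_neg_of_pos_of_neg tp h'
      have := mul_nonneg s0 (add_nonneg (sq_nonneg ((b.1 : ℝ) - a.1)) (sq_nonneg ((b.2 : ℝ) - a.2)))
      linarith
  subst ht
  exact Complex.ext (by simp [toC, t2]) (by simp [toC, t3])

lemma opp_sign {X Y t : ℝ} (h : X * Y < 0) (h0 : 0 ≤ t) (h1 : t ≤ 1)
    (e : (1 - t) * X + t * Y = 0) : 0 < t ∧ t < 1 ∧ t * (X - Y) = X ∧ X ≠ Y := by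
  refine ⟨lt_of_le_of_ne h0 ?_, lt_of_le_of_ne h1 ?_, by linarith, ?_⟩
  · rintro rfl
    have : X = 0 := by linarith
    simp [this] at h
  · rintro rfl
    have : Y = 0 := by linarith
    simp [this] at h
  · rintro rfl
    nlinarith [sq_nonneg X]

lemma cross_sub {a b c d : Pt} (h : cross a b c d = true) : (sg a b ∩ sg c d).Subsingleton := by
  simp only [cross, Bool.and_eq_true, decide_eq_true_eq] at h
  rintro z ⟨hz, hz'⟩ w ⟨hw, hw'⟩
  obtain ⟨s, s0, s1, s2, s3⟩ := mem_sg.1 hz
  obtain ⟨t, t0, t1, t2, t3⟩ := mem_sg.1 hz'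
  obtain ⟨s', s0', s1', s2', s3'⟩ := mem_sg.1 hw
  obtain ⟨t', t0', t1', t2', t3'⟩ := mem_sg.1 hw'
  obtain ⟨-, -, k1, k2⟩ := opp_sign (by exact_mod_cast h.1) t0 t1
    (ori_eq (s2.symm.trans t2) (s3.symm.trans t3))
  obtain ⟨-, -, k3, -⟩ := opp_sign (by exact_mod_cast h.1) t0' t1'
    (ori_eq (s2'.symm.trans t2') (s3'.symm.trans t3'))
  have : t = t' := mul_right_cancel₀ (sub_ne_zero.2 k2) (k1.trans k3.symm)
  subst this
  exact Complex.ext (t2.trans t2'.symm) (t3.trans t3'.symm)

/-- affine coordinates centred at `p` along `u` and `v` -/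
noncomputable def chart (p u v : ℂ) (h : u.re * v.im - u.im * v.re ≠ 0) : ℂ ≃ₜ ℂ where
  toFun z := ⟨((z - p).re * v.im - (z - p).im * v.re) / (u.re * v.im - u.im * v.re),
    (u.re * (z - p).im - u.im * (z - p).re) / (u.re * v.im - u.im * v.re)⟩
  invFun w := p + w.re • u + w.im • v
  left_inv z := by
    have k := mul_inv_cancel₀ h
    apply Complex.ext <;>
      simp only [Complex.add_re, Complex.add_im, Complex.smul_re, Complex.smul_im, smul_eq_mul,
        Complex.sub_re, Complex.sub_im, div_eq_mul_inv]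
    · linear_combination (z.re - p.re) * k
    · linear_combination (z.im - p.im) * k
  right_inv w := by
    have k := mul_inv_cancel₀ h
    apply Complex.ext <;>
      simp only [Complex.add_re, Complex.add_im, Complex.smul_re, Complex.smul_im, smul_eq_mul,
        Complex.sub_re, Complex.sub_im, div_eq_mul_inv]
    · linear_combination w.re * k
    · linear_combination w.im * k
  continuous_toFun := by
    refine Complex.equivRealProdCLM.symm.continuous.comp (f := fun z : ℂ =>
      (((z - p).re * v.im - (z - p).im * v.re) / (u.re * v.im - u.im * v.re),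
      (u.re * (z - p).im - u.im * (z - p).re) / (u.re * v.im - u.im * v.re))) ?_
    fun_prop
  continuous_invFun := by fun_prop

lemma cross_crossing {a b c d : Pt} (h : cross a b c d = true) {A' B' : Set ℂ}
    (hA : IsClosed A') (hB : IsClosed B') {p : ℂ} (hp : p ∈ sg a b) (hp' : p ∈ sg c d)
    (hpA : p ∉ A') (hpB : p ∉ B') : Crossing (sg a b ∪ A') (sg c d ∪ B') p := by
  simp only [cross, Bool.and_eq_true, decide_eq_true_eq] at h
  obtain ⟨s, s0, s1, s2, s3⟩ := mem_sg.1 hp
  obtain ⟨t, t0, t1, t2, t3⟩ := mem_sg.1 hp'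
  obtain ⟨t0', t1', -, k2⟩ := opp_sign (by exact_mod_cast h.1) t0 t1
    (ori_eq (s2.symm.trans t2) (s3.symm.trans t3))
  obtain ⟨s0', s1', -, -⟩ := opp_sign (by exact_mod_cast h.2) s0 s1
    (ori_eq (t2.symm.trans s2) (t3.symm.trans s3))
  have hD : (toC b - toC a).re * (toC d - toC c).im - (toC b - toC a).im * (toC d - toC c).re ≠ 0 := by
    intro e
    apply k2
    simp only [toC, Complex.sub_re, Complex.sub_im] at e
    simp only [ori]
    push_cast
    linear_combination (-1 : ℝ) * e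
  set H := chart p (toC b - toC a) (toC d - toC c) hD with hH
  have hinv : ∀ z, z = p + (H z).re • (toC b - toC a) + (H z).im • (toC d - toC c) :=
    fun z => (H.left_inv z).symm
  have hU : IsOpen {z | z ∉ A' ∧ z ∉ B' ∧ -s < (H z).re ∧ (H z).re < 1 - s ∧
      -t < (H z).im ∧ (H z).im < 1 - t} := by
    refine hA.isOpen_compl.inter (hB.isOpen_compl.inter (IsOpen.inter ?_ (IsOpen.inter ?_
      (IsOpen.inter ?_ ?_))))
    · exact isOpen_lt continuous_const (Complex.continuous_re.comp H.continuous)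
    · exact isOpen_lt (Complex.continuous_re.comp H.continuous) continuous_const
    · exact isOpen_lt continuous_const (Complex.continuous_im.comp H.continuous)
    · exact isOpen_lt (Complex.continuous_im.comp H.continuous) continuous_const
  have hp0 : H p = 0 := by
    apply Complex.ext <;> simp [hH, chart]
  refine ⟨H.toOpenPartialHomeomorph.restrOpen _ hU, ?_, hp0, ?_⟩
  · simp only [OpenPartialHomeomorph.restrOpen_source, Homeomorph.toOpenPartialHomeomorph_source,
      univ_inter, mem_ofPred_eq, hp0, Complex.zero_re, Complex.zero_im]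
    exact ⟨hpA, hpB, by linarith, by linarith, by linarith, by linarith⟩
  · intro z hz
    simp only [OpenPartialHomeomorph.restrOpen_source, Homeomorph.toOpenPartialHomeomorph_source,
      univ_inter, mem_ofPred_eq] at hz
    obtain ⟨zA, zB, z1, z2, z3, z4⟩ := hz
    have hz1 := congrArg Complex.re (hinv z)
    have hz2 := congrArg Complex.im (hinv z)
    simp only [toC, Complex.add_re, Complex.add_im, Complex.real_smul, Complex.mul_re,
      Complex.mul_im, Complex.ofReal_re, Complex.ofReal_im, Complex.sub_re, Complex.sub_im,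
      zero_mul, sub_zero, add_zero] at hz1 hz2 hD
    change (z ∈ sg a b ∪ A' ↔ (H z).im = 0) ∧ (z ∈ sg c d ∪ B' ↔ (H z).re = 0)
    constructor
    · constructor
      · rintro (hz | hz)
        · obtain ⟨r, -, -, r2, r3⟩ := mem_sg.1 hz
          apply mul_right_cancel₀ hD
          linear_combination (-((b.1 : ℝ) - a.1)) * (hz2 - r3 + s3) +
            ((b.2 : ℝ) - a.2) * (hz1 - r2 + s2)
        · exact absurd hz zA
      · intro e
        rw [e] at hz1 hz2
        exact Or.inl (mem_sg.2 ⟨s + (H z).re, by linarith, by linarith,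
          by linear_combination hz1 + s2, by linear_combination hz2 + s3⟩)
    · constructor
      · rintro (hz | hz)
        · obtain ⟨r, -, -, r2, r3⟩ := mem_sg.1 hz
          apply mul_right_cancel₀ hD
          linear_combination ((d.1 : ℝ) - c.1) * (hz2 - r3 + t3) -
            ((d.2 : ℝ) - c.2) * (hz1 - r2 + t2)
        · exact absurd hz zB
      · intro e
        rw [e] at hz1 hz2
        exact Or.inl (mem_sg.2 ⟨t + (H z).im, by linarith, by linarith,
          by linear_combination hz1 + t2, by linear_combination hz2 + t3⟩)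

lemma trans_inj {x y z : ℂ} (P : Path x y) (Q : Path y z) (hP : Function.Injective P)
    (hQ : Function.Injective Q) (h : range P ∩ range Q ⊆ {y}) :
    Function.Injective (P.trans Q) := by
  intro s t hst
  rw [Path.trans_apply, Path.trans_apply] at hst
  apply Subtype.ext
  split_ifs at hst with h1 h2 h2
  · have := congrArg Subtype.val (hP hst)
    simp only at this
    linarith
  · have e : Q _ = y := h ⟨⟨_, hst⟩, ⟨_, rfl⟩⟩
    have := congrArg Subtype.val (hQ (e.trans Q.source.symm))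
    simp only [Icc.coe_zero] at this
    push Not at h2
    linarith
  · have e : Q _ = y := h ⟨⟨_, hst.symm⟩, ⟨_, rfl⟩⟩
    have := congrArg Subtype.val (hQ (e.trans Q.source.symm))
    simp only [Icc.coe_zero] at this
    push Not at h1
    linarith
  · have := congrArg Subtype.val (hQ hst)
    simp only at this
    linarith

end Pool.Agent.Lib.MP_0c0e10_co
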