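import Pool.Agent.Lib.MP_0c0e10_co.Lower
import Pool.Agent.Lib.MP_0c0e10_co.Seg

/-!
Integer coordinates of the drawing, and the finite checks.
-/

set_option autoImplicit false

namespace Pool.Agent.Lib.MP_0c0e10_co

def base : Fin 7 → Pt :=
  ![(0, -200), (800, 200), (-2000, 0), (1200, 1000), (-400, -1000), (-400, 0), (1200, 0)]

def lb : Fin 8 → Pt :=
  ![(200, -100), (-200, 0), (0, 2000), (800, -2000), (600, 400), (200, -400), (400, -500),
    (400, 500)]

def cc : Fin 10 → Pt :=
  ![(0, 4000), (-1200, -60), (-200, -130), (970, 600), (-230, -600), (-1200, -530),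
    (800, -6000), (1000, 70), (1140, 500), (-460, -500)]

def oo : Fin 10 → Pt :=
  ![(0, 200), (0, 20), (0, 10), (10, 0), (10, 0), (0, 10), (0, -200), (0, 10), (20, 0), (20, 0)]

def pt : VV → Pt
  | .inl i => base i
  | .inr (i, j) => ((cc i).1 + j.1 * (oo i).1, (cc i).2 + j.1 * (oo i).2)

def bend : EE → Pt
  | .inl k => lb k
  | .inr x => (((pt (e1 (.inr x))).1 + (pt (e2 (.inr x))).1) / 2,
      ((pt (e1 (.inr x))).2 + (pt (e2 (.inr x))).2) / 2)

def ds (a b c d : Pt) : Bool := disj a b c d || shared a b c d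

/-- no common point except a common end -/
def good0 (a m b c n d : Pt) : Bool := ds a m c n && ds a m d n && ds b m c n && ds b m d n

/-- one crossing, between the halves starting at `a` and at `c` -/
def one (a m b c n d : Pt) : Bool :=
  cross a m c n && disj a m d n && disj b m c n && disj b m d n

def good1 (a m b c n d : Pt) : Bool :=
  one a m b c n d || one a m b d n c || one b m a c n d || one b m a d n c

def pairs : List (Fin 8 × Fin 8) := [(0, 1), (1, 2), (1, 3), (1, 4), (1, 5), (2, 7), (3, 6)]

def isPair : EE → EE → Bool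
  | .inl a, .inl b => decide ((a, b) ∈ pairs) || decide ((b, a) ∈ pairs)
  | _, _ => false

lemma pt_inj : Function.Injective pt := by
  unfold Function.Injective
  decide +kernel

lemma check_self : ∀ k, shared (bend k) (pt (e1 k)) (bend k) (pt (e2 k)) = true := by
  decide +kernel

lemma check_vert : ∀ k v, v = e1 k ∨ v = e2 k ∨
    (disj (pt v) (pt v) (pt (e1 k)) (bend k) && disj (pt v) (pt v) (pt (e2 k)) (bend k)) = true := by
  decide +kernel

lemma check_pair : ∀ k l, k = l ∨
    good0 (pt (e1 k)) (bend k) (pt (e2 k)) (pt (e1 l)) (bend l) (pt (e2 l)) = true ∨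
    (isPair k l && good1 (pt (e1 k)) (bend k) (pt (e2 k)) (pt (e1 l)) (bend l) (pt (e2 l))) = true := by
  decide +kernel

end Pool.Agent.Lib.MP_0c0e10_co
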