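import Mathlib

set_option autoImplicit false
open Set

namespace Pool.Agent.Lib.MP_0c0e10_co

/-- `A` and `B` cross properly at `p`: some chart around `p` sends `p` to `0`, `A` to the real axis
and `B` to the imaginary axis. -/
def Crossing (A B : Set ℂ) (p : ℂ) : Prop :=
  ∃ φ : OpenPartialHomeomorph ℂ ℂ, p ∈ φ.source ∧ φ p = 0 ∧
    ∀ z ∈ φ.source, (z ∈ A ↔ (φ z).im = 0) ∧ (z ∈ B ↔ (φ z).re = 0)

/-- A drawing of `G` in the plane. -/
structure Drawing {V : Type} (G : SimpleGraph V) where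
  pos : V → ℂ
  arc : G.edgeSet → unitInterval → ℂ
  pos_inj : Function.Injective pos
  arc_cont : ∀ e, Continuous (arc e)
  arc_inj : ∀ e, Function.Injective (arc e)
  arc_ends : ∀ e, s(arc e 0, arc e 1) = e.1.map pos
  arc_avoid : ∀ e t v, arc e t = pos v → t = 0 ∨ t = 1
  finite_inter : ∀ e f, e ≠ f → (range (arc e) ∩ range (arc f)).Finite
  proper : ∀ e f, e ≠ f → ∀ p ∈ arc e '' Ioo 0 1 ∩ arc f '' Ioo 0 1,
    Crossing (range (arc e)) (range (arc f)) p

/-- The number of crossings: pairs (unordered pair of distinct edges, common interior point). -/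
noncomputable def crossings {V : Type} {G : SimpleGraph V} (D : Drawing G) : ℕ :=
  Set.ncard {x : Sym2 G.edgeSet × ℂ | ¬ x.1.IsDiag ∧ ∀ e ∈ x.1, x.2 ∈ D.arc e '' Ioo 0 1}

end Pool.Agent.Lib.MP_0c0e10_co
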