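import Mathlib

/-!
Seven parity obstructions for the reduced graph (7 vertices, 10 heavy and 8 light edges).
-/

set_option autoImplicit false

namespace Pool.Agent.Lib.MP_0c0e10_co

def rs : Fin 18 → Fin 7 := ![3, 2, 5, 3, 4, 4, 2, 6, 3, 4, 0, 5, 0, 1, 0, 1, 4, 5]
def rt : Fin 18 → Fin 7 := ![2, 5, 0, 1, 0, 2, 6, 1, 6, 5, 1, 6, 2, 2, 3, 4, 6, 3]

def Rel (n : Fin 7 → Fin 18 → ℤ) (d : Fin 7 → Fin 7 → ℤ) (k l : Fin 18) : Prop :=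
  n (rs k) l + n (rt l) k + d (rt k) (rt l) - d (rs k) (rt l) =
    n (rs l) k + n (rt k) l + d (rt k) (rs l) - d (rs k) (rs l)

def Indep (k l : Fin 18) : Prop := rs k ≠ rs l ∧ rs k ≠ rt l ∧ rt k ≠ rs l ∧ rt k ≠ rt l

instance (k l : Fin 18) : Decidable (Indep k l) := by unfold Indep; infer_instance

lemma clause0 (n : Fin 7 → Fin 18 → ℤ) (d : Fin 7 → Fin 7 → ℤ)
    (hd : ∀ a b, a ≠ b → d a b + d b a = -1)
    (h : ∀ k l : Fin 18, k.val < 10 → Indep k l → Rel n d k l)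
    (c1 : Rel n d 10 11) (c2 : Rel n d 10 16) : False := by
  have h0 : n 3 2 + n 0 0 + d 2 0 - d 3 0 = n 5 0 + n 2 2 + d 2 5 - d 3 5 :=
    h 0 2 (by decide) (by decide)
  have h1 : n 3 4 + n 0 0 + d 2 0 - d 3 0 = n 4 0 + n 2 4 + d 2 4 - d 3 4 :=
    h 0 4 (by decide) (by decide)
  have h2 : n 3 11 + n 6 0 + d 2 6 - d 3 6 = n 5 0 + n 2 11 + d 2 5 - d 3 5 :=
    h 0 11 (by decide) (by decide)
  have h3 : n 3 16 + n 6 0 + d 2 6 - d 3 6 = n 4 0 + n 2 16 + d 2 4 - d 3 4 :=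
    h 0 16 (by decide) (by decide)
  have h4 : n 2 4 + n 0 1 + d 5 0 - d 2 0 = n 4 1 + n 5 4 + d 5 4 - d 2 4 :=
    h 1 4 (by decide) (by decide)
  have h5 : n 2 7 + n 1 1 + d 5 1 - d 2 1 = n 6 1 + n 5 7 + d 5 6 - d 2 6 :=
    h 1 7 (by decide) (by decide)
  have h6 : n 2 10 + n 1 1 + d 5 1 - d 2 1 = n 0 1 + n 5 10 + d 5 0 - d 2 0 :=
    h 1 10 (by decide) (by decide)
  have h7 : n 2 16 + n 6 1 + d 5 6 - d 2 6 = n 4 1 + n 5 16 + d 5 4 - d 2 4 :=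
    h 1 16 (by decide) (by decide)
  have h8 : n 5 3 + n 1 2 + d 0 1 - d 5 1 = n 3 2 + n 0 3 + d 0 3 - d 5 3 :=
    h 2 3 (by decide) (by decide)
  have h9 : n 5 5 + n 2 2 + d 0 2 - d 5 2 = n 4 2 + n 0 5 + d 0 4 - d 5 4 :=
    h 2 5 (by decide) (by decide)
  have h10 : n 5 7 + n 1 2 + d 0 1 - d 5 1 = n 6 2 + n 0 7 + d 0 6 - d 5 6 :=
    h 2 7 (by decide) (by decide)
  have h11 : n 5 16 + n 6 2 + d 0 6 - d 5 6 = n 4 2 + n 0 16 + d 0 4 - d 5 4 :=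
    h 2 16 (by decide) (by decide)
  have h12 : n 3 4 + n 0 3 + d 1 0 - d 3 0 = n 4 3 + n 1 4 + d 1 4 - d 3 4 :=
    h 3 4 (by decide) (by decide)
  have h13 : n 3 11 + n 6 3 + d 1 6 - d 3 6 = n 5 3 + n 1 11 + d 1 5 - d 3 5 :=
    h 3 11 (by decide) (by decide)
  have h14 : n 3 16 + n 6 3 + d 1 6 - d 3 6 = n 4 3 + n 1 16 + d 1 4 - d 3 4 :=
    h 3 16 (by decide) (by decide)
  have h15 : n 4 7 + n 1 4 + d 0 1 - d 4 1 = n 6 4 + n 0 7 + d 0 6 - d 4 6 :=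
    h 4 7 (by decide) (by decide)
  have h16 : n 4 11 + n 6 4 + d 0 6 - d 4 6 = n 5 4 + n 0 11 + d 0 5 - d 4 5 :=
    h 4 11 (by decide) (by decide)
  have h17 : n 4 7 + n 1 5 + d 2 1 - d 4 1 = n 6 5 + n 2 7 + d 2 6 - d 4 6 :=
    h 5 7 (by decide) (by decide)
  have h18 : n 4 10 + n 1 5 + d 2 1 - d 4 1 = n 0 5 + n 2 10 + d 2 0 - d 4 0 :=
    h 5 10 (by decide) (by decide)
  have h19 : n 4 11 + n 6 5 + d 2 6 - d 4 6 = n 5 5 + n 2 11 + d 2 5 - d 4 5 :=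
    h 5 11 (by decide) (by decide)
  have h20 : n 0 11 + n 6 10 + d 1 6 - d 0 6 = n 5 10 + n 1 11 + d 1 5 - d 0 5 :=
    c1
  have h21 : n 0 16 + n 6 10 + d 1 6 - d 0 6 = n 4 10 + n 1 16 + d 1 4 - d 0 4 :=
    c2
  have d01 := hd 0 1 (by decide)
  have d02 := hd 0 2 (by decide)
  have d03 := hd 0 3 (by decide)
  have d04 := hd 0 4 (by decide)
  have d05 := hd 0 5 (by decide)
  have d14 := hd 1 4 (by decide)
  have d15 := hd 1 5 (by decide)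
  have d25 := hd 2 5 (by decide)
  have d35 := hd 3 5 (by decide)
  have d45 := hd 4 5 (by decide)
  clear c1 c2 h hd
  omega

lemma clause1 (n : Fin 7 → Fin 18 → ℤ) (d : Fin 7 → Fin 7 → ℤ)
    (hd : ∀ a b, a ≠ b → d a b + d b a = -1)
    (h : ∀ k l : Fin 18, k.val < 10 → Indep k l → Rel n d k l)
    (c1 : Rel n d 11 14) (c2 : Rel n d 14 15) : False := by
  have h0 : n 3 2 + n 0 0 + d 2 0 - d 3 0 = n 5 0 + n 2 2 + d 2 5 - d 3 5 :=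
    h 0 2 (by decide) (by decide)
  have h1 : n 3 4 + n 0 0 + d 2 0 - d 3 0 = n 4 0 + n 2 4 + d 2 4 - d 3 4 :=
    h 0 4 (by decide) (by decide)
  have h2 : n 3 7 + n 1 0 + d 2 1 - d 3 1 = n 6 0 + n 2 7 + d 2 6 - d 3 6 :=
    h 0 7 (by decide) (by decide)
  have h3 : n 3 11 + n 6 0 + d 2 6 - d 3 6 = n 5 0 + n 2 11 + d 2 5 - d 3 5 :=
    h 0 11 (by decide) (by decide)
  have h4 : n 3 15 + n 4 0 + d 2 4 - d 3 4 = n 1 0 + n 2 15 + d 2 1 - d 3 1 :=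
    h 0 15 (by decide) (by decide)
  have h5 : n 2 3 + n 1 1 + d 5 1 - d 2 1 = n 3 1 + n 5 3 + d 5 3 - d 2 3 :=
    h 1 3 (by decide) (by decide)
  have h6 : n 2 4 + n 0 1 + d 5 0 - d 2 0 = n 4 1 + n 5 4 + d 5 4 - d 2 4 :=
    h 1 4 (by decide) (by decide)
  have h7 : n 2 14 + n 3 1 + d 5 3 - d 2 3 = n 0 1 + n 5 14 + d 5 0 - d 2 0 :=
    h 1 14 (by decide) (by decide)
  have h8 : n 2 15 + n 4 1 + d 5 4 - d 2 4 = n 1 1 + n 5 15 + d 5 1 - d 2 1 :=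
    h 1 15 (by decide) (by decide)
  have h9 : n 5 3 + n 1 2 + d 0 1 - d 5 1 = n 3 2 + n 0 3 + d 0 3 - d 5 3 :=
    h 2 3 (by decide) (by decide)
  have h10 : n 5 5 + n 2 2 + d 0 2 - d 5 2 = n 4 2 + n 0 5 + d 0 4 - d 5 4 :=
    h 2 5 (by decide) (by decide)
  have h11 : n 5 15 + n 4 2 + d 0 4 - d 5 4 = n 1 2 + n 0 15 + d 0 1 - d 5 1 :=
    h 2 15 (by decide) (by decide)
  have h12 : n 3 4 + n 0 3 + d 1 0 - d 3 0 = n 4 3 + n 1 4 + d 1 4 - d 3 4 :=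
    h 3 4 (by decide) (by decide)
  have h13 : n 3 5 + n 2 3 + d 1 2 - d 3 2 = n 4 3 + n 1 5 + d 1 4 - d 3 4 :=
    h 3 5 (by decide) (by decide)
  have h14 : n 4 7 + n 1 4 + d 0 1 - d 4 1 = n 6 4 + n 0 7 + d 0 6 - d 4 6 :=
    h 4 7 (by decide) (by decide)
  have h15 : n 4 11 + n 6 4 + d 0 6 - d 4 6 = n 5 4 + n 0 11 + d 0 5 - d 4 5 :=
    h 4 11 (by decide) (by decide)
  have h16 : n 4 7 + n 1 5 + d 2 1 - d 4 1 = n 6 5 + n 2 7 + d 2 6 - d 4 6 :=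
    h 5 7 (by decide) (by decide)
  have h17 : n 4 11 + n 6 5 + d 2 6 - d 4 6 = n 5 5 + n 2 11 + d 2 5 - d 4 5 :=
    h 5 11 (by decide) (by decide)
  have h18 : n 4 14 + n 3 5 + d 2 3 - d 4 3 = n 0 5 + n 2 14 + d 2 0 - d 4 0 :=
    h 5 14 (by decide) (by decide)
  have h19 : n 6 14 + n 3 7 + d 1 3 - d 6 3 = n 0 7 + n 1 14 + d 1 0 - d 6 0 :=
    h 7 14 (by decide) (by decide)
  have h20 : n 5 14 + n 3 11 + d 6 3 - d 5 3 = n 0 11 + n 6 14 + d 6 0 - d 5 0 :=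
    c1
  have h21 : n 0 15 + n 4 14 + d 3 4 - d 0 4 = n 1 14 + n 3 15 + d 3 1 - d 0 1 :=
    c2
  have d01 := hd 0 1 (by decide)
  have d02 := hd 0 2 (by decide)
  have d03 := hd 0 3 (by decide)
  have d04 := hd 0 4 (by decide)
  have d05 := hd 0 5 (by decide)
  have d06 := hd 0 6 (by decide)
  have d12 := hd 1 2 (by decide)
  have d13 := hd 1 3 (by decide)
  have d14 := hd 1 4 (by decide)
  have d23 := hd 2 3 (by decide)
  have d25 := hd 2 5 (by decide)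
  have d34 := hd 3 4 (by decide)
  have d35 := hd 3 5 (by decide)
  have d36 := hd 3 6 (by decide)
  have d45 := hd 4 5 (by decide)
  clear c1 c2 h hd
  omega

lemma clause2 (n : Fin 7 → Fin 18 → ℤ) (d : Fin 7 → Fin 7 → ℤ)
    (hd : ∀ a b, a ≠ b → d a b + d b a = -1)
    (h : ∀ k l : Fin 18, k.val < 10 → Indep k l → Rel n d k l)
    (c1 : Rel n d 11 15) (c2 : Rel n d 15 17) : False := by
  have h0 : n 3 2 + n 0 0 + d 2 0 - d 3 0 = n 5 0 + n 2 2 + d 2 5 - d 3 5 :=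
    h 0 2 (by decide) (by decide)
  have h1 : n 3 4 + n 0 0 + d 2 0 - d 3 0 = n 4 0 + n 2 4 + d 2 4 - d 3 4 :=
    h 0 4 (by decide) (by decide)
  have h2 : n 3 7 + n 1 0 + d 2 1 - d 3 1 = n 6 0 + n 2 7 + d 2 6 - d 3 6 :=
    h 0 7 (by decide) (by decide)
  have h3 : n 3 11 + n 6 0 + d 2 6 - d 3 6 = n 5 0 + n 2 11 + d 2 5 - d 3 5 :=
    h 0 11 (by decide) (by decide)
  have h4 : n 3 15 + n 4 0 + d 2 4 - d 3 4 = n 1 0 + n 2 15 + d 2 1 - d 3 1 :=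
    h 0 15 (by decide) (by decide)
  have h5 : n 5 3 + n 1 2 + d 0 1 - d 5 1 = n 3 2 + n 0 3 + d 0 3 - d 5 3 :=
    h 2 3 (by decide) (by decide)
  have h6 : n 5 6 + n 6 2 + d 0 6 - d 5 6 = n 2 2 + n 0 6 + d 0 2 - d 5 2 :=
    h 2 6 (by decide) (by decide)
  have h7 : n 5 7 + n 1 2 + d 0 1 - d 5 1 = n 6 2 + n 0 7 + d 0 6 - d 5 6 :=
    h 2 7 (by decide) (by decide)
  have h8 : n 3 4 + n 0 3 + d 1 0 - d 3 0 = n 4 3 + n 1 4 + d 1 4 - d 3 4 :=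
    h 3 4 (by decide) (by decide)
  have h9 : n 3 5 + n 2 3 + d 1 2 - d 3 2 = n 4 3 + n 1 5 + d 1 4 - d 3 4 :=
    h 3 5 (by decide) (by decide)
  have h10 : n 3 6 + n 6 3 + d 1 6 - d 3 6 = n 2 3 + n 1 6 + d 1 2 - d 3 2 :=
    h 3 6 (by decide) (by decide)
  have h11 : n 3 11 + n 6 3 + d 1 6 - d 3 6 = n 5 3 + n 1 11 + d 1 5 - d 3 5 :=
    h 3 11 (by decide) (by decide)
  have h12 : n 4 6 + n 6 4 + d 0 6 - d 4 6 = n 2 4 + n 0 6 + d 0 2 - d 4 2 :=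
    h 4 6 (by decide) (by decide)
  have h13 : n 4 7 + n 1 4 + d 0 1 - d 4 1 = n 6 4 + n 0 7 + d 0 6 - d 4 6 :=
    h 4 7 (by decide) (by decide)
  have h14 : n 4 7 + n 1 5 + d 2 1 - d 4 1 = n 6 5 + n 2 7 + d 2 6 - d 4 6 :=
    h 5 7 (by decide) (by decide)
  have h15 : n 4 11 + n 6 5 + d 2 6 - d 4 6 = n 5 5 + n 2 11 + d 2 5 - d 4 5 :=
    h 5 11 (by decide) (by decide)
  have h16 : n 4 17 + n 3 5 + d 2 3 - d 4 3 = n 5 5 + n 2 17 + d 2 5 - d 4 5 :=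
    h 5 17 (by decide) (by decide)
  have h17 : n 2 15 + n 4 6 + d 6 4 - d 2 4 = n 1 6 + n 6 15 + d 6 1 - d 2 1 :=
    h 6 15 (by decide) (by decide)
  have h18 : n 2 17 + n 3 6 + d 6 3 - d 2 3 = n 5 6 + n 6 17 + d 6 5 - d 2 5 :=
    h 6 17 (by decide) (by decide)
  have h19 : n 6 17 + n 3 7 + d 1 3 - d 6 3 = n 5 7 + n 1 17 + d 1 5 - d 6 5 :=
    h 7 17 (by decide) (by decide)
  have h20 : n 5 15 + n 4 11 + d 6 4 - d 5 4 = n 1 11 + n 6 15 + d 6 1 - d 5 1 :=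
    c1
  have h21 : n 1 17 + n 3 15 + d 4 3 - d 1 3 = n 5 15 + n 4 17 + d 4 5 - d 1 5 :=
    c2
  have d01 := hd 0 1 (by decide)
  have d02 := hd 0 2 (by decide)
  have d03 := hd 0 3 (by decide)
  have d12 := hd 1 2 (by decide)
  have d13 := hd 1 3 (by decide)
  have d14 := hd 1 4 (by decide)
  have d15 := hd 1 5 (by decide)
  have d16 := hd 1 6 (by decide)
  have d23 := hd 2 3 (by decide)
  have d24 := hd 2 4 (by decide)
  have d25 := hd 2 5 (by decide)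
  have d34 := hd 3 4 (by decide)
  have d35 := hd 3 5 (by decide)
  have d36 := hd 3 6 (by decide)
  have d45 := hd 4 5 (by decide)
  have d46 := hd 4 6 (by decide)
  have d56 := hd 5 6 (by decide)
  clear c1 c2 h hd
  omega

lemma clause3 (n : Fin 7 → Fin 18 → ℤ) (d : Fin 7 → Fin 7 → ℤ)
    (hd : ∀ a b, a ≠ b → d a b + d b a = -1)
    (h : ∀ k l : Fin 18, k.val < 10 → Indep k l → Rel n d k l)
    (c1 : Rel n d 11 12) (c2 : Rel n d 12 15) : False := by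
  have h0 : n 3 2 + n 0 0 + d 2 0 - d 3 0 = n 5 0 + n 2 2 + d 2 5 - d 3 5 :=
    h 0 2 (by decide) (by decide)
  have h1 : n 3 4 + n 0 0 + d 2 0 - d 3 0 = n 4 0 + n 2 4 + d 2 4 - d 3 4 :=
    h 0 4 (by decide) (by decide)
  have h2 : n 3 9 + n 5 0 + d 2 5 - d 3 5 = n 4 0 + n 2 9 + d 2 4 - d 3 4 :=
    h 0 9 (by decide) (by decide)
  have h3 : n 2 4 + n 0 1 + d 5 0 - d 2 0 = n 4 1 + n 5 4 + d 5 4 - d 2 4 :=
    h 1 4 (by decide) (by decide)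
  have h4 : n 2 10 + n 1 1 + d 5 1 - d 2 1 = n 0 1 + n 5 10 + d 5 0 - d 2 0 :=
    h 1 10 (by decide) (by decide)
  have h5 : n 2 15 + n 4 1 + d 5 4 - d 2 4 = n 1 1 + n 5 15 + d 5 1 - d 2 1 :=
    h 1 15 (by decide) (by decide)
  have h6 : n 5 3 + n 1 2 + d 0 1 - d 5 1 = n 3 2 + n 0 3 + d 0 3 - d 5 3 :=
    h 2 3 (by decide) (by decide)
  have h7 : n 5 5 + n 2 2 + d 0 2 - d 5 2 = n 4 2 + n 0 5 + d 0 4 - d 5 4 :=
    h 2 5 (by decide) (by decide)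
  have h8 : n 5 15 + n 4 2 + d 0 4 - d 5 4 = n 1 2 + n 0 15 + d 0 1 - d 5 1 :=
    h 2 15 (by decide) (by decide)
  have h9 : n 3 4 + n 0 3 + d 1 0 - d 3 0 = n 4 3 + n 1 4 + d 1 4 - d 3 4 :=
    h 3 4 (by decide) (by decide)
  have h10 : n 3 9 + n 5 3 + d 1 5 - d 3 5 = n 4 3 + n 1 9 + d 1 4 - d 3 4 :=
    h 3 9 (by decide) (by decide)
  have h11 : n 4 7 + n 1 4 + d 0 1 - d 4 1 = n 6 4 + n 0 7 + d 0 6 - d 4 6 :=
    h 4 7 (by decide) (by decide)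
  have h12 : n 4 11 + n 6 4 + d 0 6 - d 4 6 = n 5 4 + n 0 11 + d 0 5 - d 4 5 :=
    h 4 11 (by decide) (by decide)
  have h13 : n 4 7 + n 1 5 + d 2 1 - d 4 1 = n 6 5 + n 2 7 + d 2 6 - d 4 6 :=
    h 5 7 (by decide) (by decide)
  have h14 : n 4 10 + n 1 5 + d 2 1 - d 4 1 = n 0 5 + n 2 10 + d 2 0 - d 4 0 :=
    h 5 10 (by decide) (by decide)
  have h15 : n 4 11 + n 6 5 + d 2 6 - d 4 6 = n 5 5 + n 2 11 + d 2 5 - d 4 5 :=
    h 5 11 (by decide) (by decide)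
  have h16 : n 6 12 + n 2 7 + d 1 2 - d 6 2 = n 0 7 + n 1 12 + d 1 0 - d 6 0 :=
    h 7 12 (by decide) (by decide)
  have h17 : n 4 10 + n 1 9 + d 5 1 - d 4 1 = n 0 9 + n 5 10 + d 5 0 - d 4 0 :=
    h 9 10 (by decide) (by decide)
  have h18 : n 4 12 + n 2 9 + d 5 2 - d 4 2 = n 0 9 + n 5 12 + d 5 0 - d 4 0 :=
    h 9 12 (by decide) (by decide)
  have h19 : n 5 12 + n 2 11 + d 6 2 - d 5 2 = n 0 11 + n 6 12 + d 6 0 - d 5 0 :=
    c1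
  have h20 : n 0 15 + n 4 12 + d 2 4 - d 0 4 = n 1 12 + n 2 15 + d 2 1 - d 0 1 :=
    c2
  have d01 := hd 0 1 (by decide)
  have d02 := hd 0 2 (by decide)
  have d03 := hd 0 3 (by decide)
  have d04 := hd 0 4 (by decide)
  have d05 := hd 0 5 (by decide)
  have d06 := hd 0 6 (by decide)
  have d12 := hd 1 2 (by decide)
  have d14 := hd 1 4 (by decide)
  have d15 := hd 1 5 (by decide)
  have d24 := hd 2 4 (by decide)
  have d25 := hd 2 5 (by decide)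
  have d26 := hd 2 6 (by decide)
  have d35 := hd 3 5 (by decide)
  have d45 := hd 4 5 (by decide)
  clear c1 c2 h hd
  omega

lemma clause4 (n : Fin 7 → Fin 18 → ℤ) (d : Fin 7 → Fin 7 → ℤ)
    (hd : ∀ a b, a ≠ b → d a b + d b a = -1)
    (h : ∀ k l : Fin 18, k.val < 10 → Indep k l → Rel n d k l)
    (c1 : Rel n d 12 16) (c2 : Rel n d 12 17) : False := by
  have h0 : n 3 2 + n 0 0 + d 2 0 - d 3 0 = n 5 0 + n 2 2 + d 2 5 - d 3 5 :=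
    h 0 2 (by decide) (by decide)
  have h1 : n 3 4 + n 0 0 + d 2 0 - d 3 0 = n 4 0 + n 2 4 + d 2 4 - d 3 4 :=
    h 0 4 (by decide) (by decide)
  have h2 : n 3 9 + n 5 0 + d 2 5 - d 3 5 = n 4 0 + n 2 9 + d 2 4 - d 3 4 :=
    h 0 9 (by decide) (by decide)
  have h3 : n 2 4 + n 0 1 + d 5 0 - d 2 0 = n 4 1 + n 5 4 + d 5 4 - d 2 4 :=
    h 1 4 (by decide) (by decide)
  have h4 : n 2 7 + n 1 1 + d 5 1 - d 2 1 = n 6 1 + n 5 7 + d 5 6 - d 2 6 :=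
    h 1 7 (by decide) (by decide)
  have h5 : n 2 10 + n 1 1 + d 5 1 - d 2 1 = n 0 1 + n 5 10 + d 5 0 - d 2 0 :=
    h 1 10 (by decide) (by decide)
  have h6 : n 2 16 + n 6 1 + d 5 6 - d 2 6 = n 4 1 + n 5 16 + d 5 4 - d 2 4 :=
    h 1 16 (by decide) (by decide)
  have h7 : n 5 3 + n 1 2 + d 0 1 - d 5 1 = n 3 2 + n 0 3 + d 0 3 - d 5 3 :=
    h 2 3 (by decide) (by decide)
  have h8 : n 5 5 + n 2 2 + d 0 2 - d 5 2 = n 4 2 + n 0 5 + d 0 4 - d 5 4 :=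
    h 2 5 (by decide) (by decide)
  have h9 : n 5 7 + n 1 2 + d 0 1 - d 5 1 = n 6 2 + n 0 7 + d 0 6 - d 5 6 :=
    h 2 7 (by decide) (by decide)
  have h10 : n 5 16 + n 6 2 + d 0 6 - d 5 6 = n 4 2 + n 0 16 + d 0 4 - d 5 4 :=
    h 2 16 (by decide) (by decide)
  have h11 : n 3 5 + n 2 3 + d 1 2 - d 3 2 = n 4 3 + n 1 5 + d 1 4 - d 3 4 :=
    h 3 5 (by decide) (by decide)
  have h12 : n 3 9 + n 5 3 + d 1 5 - d 3 5 = n 4 3 + n 1 9 + d 1 4 - d 3 4 :=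
    h 3 9 (by decide) (by decide)
  have h13 : n 3 12 + n 2 3 + d 1 2 - d 3 2 = n 0 3 + n 1 12 + d 1 0 - d 3 0 :=
    h 3 12 (by decide) (by decide)
  have h14 : n 4 17 + n 3 4 + d 0 3 - d 4 3 = n 5 4 + n 0 17 + d 0 5 - d 4 5 :=
    h 4 17 (by decide) (by decide)
  have h15 : n 4 10 + n 1 5 + d 2 1 - d 4 1 = n 0 5 + n 2 10 + d 2 0 - d 4 0 :=
    h 5 10 (by decide) (by decide)
  have h16 : n 4 17 + n 3 5 + d 2 3 - d 4 3 = n 5 5 + n 2 17 + d 2 5 - d 4 5 :=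
    h 5 17 (by decide) (by decide)
  have h17 : n 6 12 + n 2 7 + d 1 2 - d 6 2 = n 0 7 + n 1 12 + d 1 0 - d 6 0 :=
    h 7 12 (by decide) (by decide)
  have h18 : n 4 10 + n 1 9 + d 5 1 - d 4 1 = n 0 9 + n 5 10 + d 5 0 - d 4 0 :=
    h 9 10 (by decide) (by decide)
  have h19 : n 4 12 + n 2 9 + d 5 2 - d 4 2 = n 0 9 + n 5 12 + d 5 0 - d 4 0 :=
    h 9 12 (by decide) (by decide)
  have h20 : n 0 16 + n 6 12 + d 2 6 - d 0 6 = n 4 12 + n 2 16 + d 2 4 - d 0 4 :=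
    c1
  have h21 : n 0 17 + n 3 12 + d 2 3 - d 0 3 = n 5 12 + n 2 17 + d 2 5 - d 0 5 :=
    c2
  have d01 := hd 0 1 (by decide)
  have d02 := hd 0 2 (by decide)
  have d03 := hd 0 3 (by decide)
  have d04 := hd 0 4 (by decide)
  have d05 := hd 0 5 (by decide)
  have d06 := hd 0 6 (by decide)
  have d12 := hd 1 2 (by decide)
  have d14 := hd 1 4 (by decide)
  have d15 := hd 1 5 (by decide)
  have d23 := hd 2 3 (by decide)
  have d24 := hd 2 4 (by decide)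
  have d25 := hd 2 5 (by decide)
  have d26 := hd 2 6 (by decide)
  have d34 := hd 3 4 (by decide)
  have d35 := hd 3 5 (by decide)
  have d45 := hd 4 5 (by decide)
  clear c1 c2 h hd
  omega

lemma clause5 (n : Fin 7 → Fin 18 → ℤ) (d : Fin 7 → Fin 7 → ℤ)
    (hd : ∀ a b, a ≠ b → d a b + d b a = -1)
    (h : ∀ k l : Fin 18, k.val < 10 → Indep k l → Rel n d k l)
    (c1 : Rel n d 11 13) (c2 : Rel n d 13 14) : False := by
  have h0 : n 3 2 + n 0 0 + d 2 0 - d 3 0 = n 5 0 + n 2 2 + d 2 5 - d 3 5 :=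
    h 0 2 (by decide) (by decide)
  have h1 : n 3 7 + n 1 0 + d 2 1 - d 3 1 = n 6 0 + n 2 7 + d 2 6 - d 3 6 :=
    h 0 7 (by decide) (by decide)
  have h2 : n 3 10 + n 1 0 + d 2 1 - d 3 1 = n 0 0 + n 2 10 + d 2 0 - d 3 0 :=
    h 0 10 (by decide) (by decide)
  have h3 : n 3 11 + n 6 0 + d 2 6 - d 3 6 = n 5 0 + n 2 11 + d 2 5 - d 3 5 :=
    h 0 11 (by decide) (by decide)
  have h4 : n 2 3 + n 1 1 + d 5 1 - d 2 1 = n 3 1 + n 5 3 + d 5 3 - d 2 3 :=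
    h 1 3 (by decide) (by decide)
  have h5 : n 2 7 + n 1 1 + d 5 1 - d 2 1 = n 6 1 + n 5 7 + d 5 6 - d 2 6 :=
    h 1 7 (by decide) (by decide)
  have h6 : n 2 8 + n 6 1 + d 5 6 - d 2 6 = n 3 1 + n 5 8 + d 5 3 - d 2 3 :=
    h 1 8 (by decide) (by decide)
  have h7 : n 5 7 + n 1 2 + d 0 1 - d 5 1 = n 6 2 + n 0 7 + d 0 6 - d 5 6 :=
    h 2 7 (by decide) (by decide)
  have h8 : n 5 8 + n 6 2 + d 0 6 - d 5 6 = n 3 2 + n 0 8 + d 0 3 - d 5 3 :=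
    h 2 8 (by decide) (by decide)
  have h9 : n 5 13 + n 2 2 + d 0 2 - d 5 2 = n 1 2 + n 0 13 + d 0 1 - d 5 1 :=
    h 2 13 (by decide) (by decide)
  have h10 : n 3 6 + n 6 3 + d 1 6 - d 3 6 = n 2 3 + n 1 6 + d 1 2 - d 3 2 :=
    h 3 6 (by decide) (by decide)
  have h11 : n 3 11 + n 6 3 + d 1 6 - d 3 6 = n 5 3 + n 1 11 + d 1 5 - d 3 5 :=
    h 3 11 (by decide) (by decide)
  have h12 : n 2 10 + n 1 6 + d 6 1 - d 2 1 = n 0 6 + n 6 10 + d 6 0 - d 2 0 :=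
    h 6 10 (by decide) (by decide)
  have h13 : n 2 14 + n 3 6 + d 6 3 - d 2 3 = n 0 6 + n 6 14 + d 6 0 - d 2 0 :=
    h 6 14 (by decide) (by decide)
  have h14 : n 6 14 + n 3 7 + d 1 3 - d 6 3 = n 0 7 + n 1 14 + d 1 0 - d 6 0 :=
    h 7 14 (by decide) (by decide)
  have h15 : n 3 10 + n 1 8 + d 6 1 - d 3 1 = n 0 8 + n 6 10 + d 6 0 - d 3 0 :=
    h 8 10 (by decide) (by decide)
  have h16 : n 3 13 + n 2 8 + d 6 2 - d 3 2 = n 1 8 + n 6 13 + d 6 1 - d 3 1 :=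
    h 8 13 (by decide) (by decide)
  have h17 : n 5 13 + n 2 11 + d 6 2 - d 5 2 = n 1 11 + n 6 13 + d 6 1 - d 5 1 :=
    c1
  have h18 : n 1 14 + n 3 13 + d 2 3 - d 1 3 = n 0 13 + n 2 14 + d 2 0 - d 1 0 :=
    c2
  have d01 := hd 0 1 (by decide)
  have d02 := hd 0 2 (by decide)
  have d03 := hd 0 3 (by decide)
  have d06 := hd 0 6 (by decide)
  have d12 := hd 1 2 (by decide)
  have d13 := hd 1 3 (by decide)
  have d15 := hd 1 5 (by decide)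
  have d16 := hd 1 6 (by decide)
  have d23 := hd 2 3 (by decide)
  have d25 := hd 2 5 (by decide)
  have d26 := hd 2 6 (by decide)
  have d35 := hd 3 5 (by decide)
  have d36 := hd 3 6 (by decide)
  clear c1 c2 h hd
  omega

lemma clause6 (n : Fin 7 → Fin 18 → ℤ) (d : Fin 7 → Fin 7 → ℤ)
    (hd : ∀ a b, a ≠ b → d a b + d b a = -1)
    (h : ∀ k l : Fin 18, k.val < 10 → Indep k l → Rel n d k l)
    (c1 : Rel n d 13 16) (c2 : Rel n d 13 17) : False := by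
  have h0 : n 3 4 + n 0 0 + d 2 0 - d 3 0 = n 4 0 + n 2 4 + d 2 4 - d 3 4 :=
    h 0 4 (by decide) (by decide)
  have h1 : n 3 7 + n 1 0 + d 2 1 - d 3 1 = n 6 0 + n 2 7 + d 2 6 - d 3 6 :=
    h 0 7 (by decide) (by decide)
  have h2 : n 3 10 + n 1 0 + d 2 1 - d 3 1 = n 0 0 + n 2 10 + d 2 0 - d 3 0 :=
    h 0 10 (by decide) (by decide)
  have h3 : n 3 16 + n 6 0 + d 2 6 - d 3 6 = n 4 0 + n 2 16 + d 2 4 - d 3 4 :=
    h 0 16 (by decide) (by decide)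
  have h4 : n 2 3 + n 1 1 + d 5 1 - d 2 1 = n 3 1 + n 5 3 + d 5 3 - d 2 3 :=
    h 1 3 (by decide) (by decide)
  have h5 : n 2 7 + n 1 1 + d 5 1 - d 2 1 = n 6 1 + n 5 7 + d 5 6 - d 2 6 :=
    h 1 7 (by decide) (by decide)
  have h6 : n 2 8 + n 6 1 + d 5 6 - d 2 6 = n 3 1 + n 5 8 + d 5 3 - d 2 3 :=
    h 1 8 (by decide) (by decide)
  have h7 : n 5 3 + n 1 2 + d 0 1 - d 5 1 = n 3 2 + n 0 3 + d 0 3 - d 5 3 :=
    h 2 3 (by decide) (by decide)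
  have h8 : n 5 6 + n 6 2 + d 0 6 - d 5 6 = n 2 2 + n 0 6 + d 0 2 - d 5 2 :=
    h 2 6 (by decide) (by decide)
  have h9 : n 5 8 + n 6 2 + d 0 6 - d 5 6 = n 3 2 + n 0 8 + d 0 3 - d 5 3 :=
    h 2 8 (by decide) (by decide)
  have h10 : n 5 13 + n 2 2 + d 0 2 - d 5 2 = n 1 2 + n 0 13 + d 0 1 - d 5 1 :=
    h 2 13 (by decide) (by decide)
  have h11 : n 3 4 + n 0 3 + d 1 0 - d 3 0 = n 4 3 + n 1 4 + d 1 4 - d 3 4 :=
    h 3 4 (by decide) (by decide)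
  have h12 : n 3 6 + n 6 3 + d 1 6 - d 3 6 = n 2 3 + n 1 6 + d 1 2 - d 3 2 :=
    h 3 6 (by decide) (by decide)
  have h13 : n 3 16 + n 6 3 + d 1 6 - d 3 6 = n 4 3 + n 1 16 + d 1 4 - d 3 4 :=
    h 3 16 (by decide) (by decide)
  have h14 : n 4 13 + n 2 4 + d 0 2 - d 4 2 = n 1 4 + n 0 13 + d 0 1 - d 4 1 :=
    h 4 13 (by decide) (by decide)
  have h15 : n 2 10 + n 1 6 + d 6 1 - d 2 1 = n 0 6 + n 6 10 + d 6 0 - d 2 0 :=
    h 6 10 (by decide) (by decide)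
  have h16 : n 2 17 + n 3 6 + d 6 3 - d 2 3 = n 5 6 + n 6 17 + d 6 5 - d 2 5 :=
    h 6 17 (by decide) (by decide)
  have h17 : n 6 17 + n 3 7 + d 1 3 - d 6 3 = n 5 7 + n 1 17 + d 1 5 - d 6 5 :=
    h 7 17 (by decide) (by decide)
  have h18 : n 3 10 + n 1 8 + d 6 1 - d 3 1 = n 0 8 + n 6 10 + d 6 0 - d 3 0 :=
    h 8 10 (by decide) (by decide)
  have h19 : n 3 13 + n 2 8 + d 6 2 - d 3 2 = n 1 8 + n 6 13 + d 6 1 - d 3 1 :=
    h 8 13 (by decide) (by decide)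
  have h20 : n 1 16 + n 6 13 + d 2 6 - d 1 6 = n 4 13 + n 2 16 + d 2 4 - d 1 4 :=
    c1
  have h21 : n 1 17 + n 3 13 + d 2 3 - d 1 3 = n 5 13 + n 2 17 + d 2 5 - d 1 5 :=
    c2
  have d01 := hd 0 1 (by decide)
  have d02 := hd 0 2 (by decide)
  have d03 := hd 0 3 (by decide)
  have d06 := hd 0 6 (by decide)
  have d12 := hd 1 2 (by decide)
  have d13 := hd 1 3 (by decide)
  have d14 := hd 1 4 (by decide)
  have d15 := hd 1 5 (by decide)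
  have d16 := hd 1 6 (by decide)
  have d23 := hd 2 3 (by decide)
  have d24 := hd 2 4 (by decide)
  have d25 := hd 2 5 (by decide)
  have d26 := hd 2 6 (by decide)
  have d36 := hd 3 6 (by decide)
  have d56 := hd 5 6 (by decide)
  clear c1 c2 h hd
  omega

def cl : Fin 7 → Bool → Fin 8 × Fin 8 := fun m b =>
  if b then ![(0, 1), (1, 4), (1, 5), (1, 2), (2, 6), (1, 3), (3, 6)] m
  else ![(0, 6), (4, 5), (5, 7), (2, 5), (2, 7), (3, 4), (3, 7)] m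

theorem clauses (n : Fin 7 → Fin 18 → ℤ) (d : Fin 7 → Fin 7 → ℤ)
    (hd : ∀ a b, a ≠ b → d a b + d b a = -1)
    (h : ∀ k l : Fin 18, k.val < 10 → Indep k l → Rel n d k l) (m : Fin 7) :
    ∃ b, ¬ Rel n d (Fin.natAdd 10 (cl m b).1) (Fin.natAdd 10 (cl m b).2) := by
  by_contra hc
  push Not at hc
  have c1 := hc true
  have c2 := hc false
  fin_cases m
  · exact clause0 n d hd h c1 c2
  · exact clause1 n d hd h c1 c2
  · exact clause2 n d hd h c1 c2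
  · exact clause3 n d hd h c1 c2
  · exact clause4 n d hd h c1 c2
  · exact clause5 n d hd h c1 c2
  · exact clause6 n d hd h c1 c2

end Pool.Agent.Lib.MP_0c0e10_co
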