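import Mathlib

/-!
Integer form of the van Kampen obstruction: disjoint paths in the plane give linear relations
between winding integers.
-/

set_option autoImplicit false
open Complex Set

namespace Pool.Agent.Lib.MP_0c0e10_co

lemma exists_lift {A : Type} [TopologicalSpace A] [SimplyConnectedSpace A]
    [LocallyPathConnectedSpace A] (f : A → ℂ) (hf : Continuous f) (h0 : ∀ a, f a ≠ 0) (a₀ : A) :
    ∃ L : A → ℂ, Continuous L ∧ ∀ a, exp (L a) = f a := by
  obtain ⟨F, ⟨-, hF⟩, -⟩ := isCoveringMapOn_exp.existsUnique_continuousMap_lifts ⟨f, hf⟩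
    (a₀ := a₀) (e₀ := log (f a₀)) (exp_log (h0 a₀)) h0
  exact ⟨F, F.continuous, fun a => congrFun hF a⟩

/-- `w` is the total variation of a continuous logarithm of `g` between `0` and `1` -/
def IsW (g : ℝ → ℂ) (w : ℂ) : Prop :=
  ∃ L : ℝ → ℂ, Continuous L ∧ (∀ t, exp (L t) = g t) ∧ w = L 1 - L 0

lemma IsW.unique {g : ℝ → ℂ} {w w' : ℂ} (h : IsW g w) (h' : IsW g w') : w = w' := by
  obtain ⟨L, c, e, rfl⟩ := h
  obtain ⟨L', c', e', rfl⟩ := h'
  have := isCoveringMap_exp.const_of_comp (g := fun t => L t - L' t) (c.sub c') (by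
    intro a a'
    apply Subtype.ext
    have h1 : ∀ t, exp (L t - L' t) = 1 := by
      intro t
      rw [exp_sub, e, ← e' t, div_self (exp_ne_zero _)]
    simp only [h1]) 1 0
  linear_combination this

lemma IsW.neg {g : ℝ → ℂ} {w : ℂ} (h : IsW g w) : IsW (fun t => - g t) w := by
  obtain ⟨L, c, e, rfl⟩ := h
  refine ⟨fun t => L t + Real.pi * I, by fun_prop, fun t => ?_, by ring⟩
  rw [exp_add, e, exp_pi_mul_I]
  ring

lemma IsW.exists_int {g : ℝ → ℂ} {w : ℂ} (h : IsW g w) :
    ∃ n : ℤ, w = log (g 1) - log (g 0) + n * (2 * Real.pi * I) := by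
  obtain ⟨L, c, e, rfl⟩ := h
  have h1 : ∀ t, ∃ n : ℤ, L t = log (g t) + n * (2 * Real.pi * I) := by
    intro t
    rw [← exp_eq_exp_iff_exists_int, exp_log (e t ▸ exp_ne_zero _), e]
  obtain ⟨n1, e1⟩ := h1 1
  obtain ⟨n0, e0⟩ := h1 0
  exact ⟨n1 - n0, by rw [e1, e0]; push_cast; ring⟩

theorem vanKampen {V K : Type} (pos : V → ℂ) (hpos : Function.Injective pos) (s t : K → V)
    (P : ∀ k, Path (pos (s k)) (pos (t k))) :
    ∃ (n : V → K → ℤ) (d : V → V → ℤ), (∀ a b, a ≠ b → d a b + d b a = -1) ∧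
      ∀ k l, Disjoint (range (P k)) (range (P l)) →
        n (s k) l + n (t l) k + d (t k) (t l) - d (s k) (t l) =
          n (s l) k + n (t k) l + d (t k) (s l) - d (s k) (s l) := by
  have hpi : (2 * Real.pi * I : ℂ) ≠ 0 := by simp [Real.pi_ne_zero]
  have hd : ∀ a b : V, ∃ d : ℤ, a ≠ b →
      log (pos a - pos b) = log (pos b - pos a) + Real.pi * I + d * (2 * Real.pi * I) := by
    intro a b
    by_cases h : a = b
    · exact ⟨0, fun h' => absurd h h'⟩
    · have h1 : pos a - pos b ≠ 0 := sub_ne_zero.2 (hpos.ne h)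
      have h2 : pos b - pos a ≠ 0 := sub_ne_zero.2 (hpos.ne (Ne.symm h))
      have : exp (log (pos a - pos b)) = exp (log (pos b - pos a) + Real.pi * I) := by
        rw [exp_add, exp_log h1, exp_log h2, exp_pi_mul_I]
        ring
      obtain ⟨d, hd⟩ := exp_eq_exp_iff_exists_int.1 this
      exact ⟨d, fun _ => hd⟩
  choose d hd using hd
  have hn : ∀ (a : V) (k : K), ∃ n : ℤ, ∀ w, IsW (fun τ => (P k).extend τ - pos a) w →
      w = log (pos (t k) - pos a) - log (pos (s k) - pos a) + n * (2 * Real.pi * I) := by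
    intro a k
    by_cases h : ∃ w, IsW (fun τ => (P k).extend τ - pos a) w
    · obtain ⟨w, hw⟩ := h
      obtain ⟨n, hn⟩ := hw.exists_int
      refine ⟨n, fun w' hw' => ?_⟩
      rw [hw'.unique hw, hn]
      simp
    · exact ⟨0, fun w hw => absurd ⟨w, hw⟩ h⟩
  choose n hn using hn
  refine ⟨n, d, fun a b hab => ?_, fun k l hkl => ?_⟩
  · have h1 := hd a b hab
    have h2 := hd b a hab.symm
    have : ((d a b + d b a : ℤ) : ℂ) = ((-1 : ℤ) : ℂ) := by
      apply mul_right_cancel₀ hpi
      push_cast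
      linear_combination - h1 - h2
    exact_mod_cast this
  · have hne : ∀ σ τ : ℝ, (P l).extend τ - (P k).extend σ ≠ 0 := by
      intro σ τ h
      have h1 : (P k).extend σ ∈ range (P k) := (P k).extend_range ▸ mem_range_self σ
      have h2 : (P l).extend τ ∈ range (P l) := (P l).extend_range ▸ mem_range_self τ
      rw [sub_eq_zero] at h
      exact disjoint_left.1 hkl h1 (h ▸ h2)
    obtain ⟨L, hL, eL⟩ := exists_lift (fun p : ℝ × ℝ => (P l).extend p.2 - (P k).extend p.1)
      (by fun_prop) (fun p => hne p.1 p.2) (0, 0)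
    have w1 : IsW (fun τ => (P l).extend τ - pos (s k)) (L (0, 1) - L (0, 0)) :=
      ⟨fun τ => L (0, τ), by fun_prop, fun τ => by simp [eL], rfl⟩
    have w2 : IsW (fun τ => (P l).extend τ - pos (t k)) (L (1, 1) - L (1, 0)) :=
      ⟨fun τ => L (1, τ), by fun_prop, fun τ => by simp [eL], rfl⟩
    have w3 : IsW (fun σ => (P k).extend σ - pos (s l)) (L (1, 0) - L (0, 0)) := by
      have : IsW (fun σ => pos (s l) - (P k).extend σ) (L (1, 0) - L (0, 0)) :=
        ⟨fun σ => L (σ, 0), by fun_prop, fun σ => by simp [eL], rfl⟩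
      simpa using this.neg
    have w4 : IsW (fun σ => (P k).extend σ - pos (t l)) (L (1, 1) - L (0, 1)) := by
      have : IsW (fun σ => pos (t l) - (P k).extend σ) (L (1, 1) - L (0, 1)) :=
        ⟨fun σ => L (σ, 1), by fun_prop, fun σ => by simp [eL], rfl⟩
      simpa using this.neg
    have e1 := hn _ _ _ w1
    have e2 := hn _ _ _ w2
    have e3 := hn _ _ _ w3
    have e4 := hn _ _ _ w4
    have n1 : s k ≠ s l := fun h => hne 0 0 (by simp [h])
    have n2 : s k ≠ t l := fun h => hne 0 1 (by simp [h])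
    have n3 : t k ≠ s l := fun h => hne 1 0 (by simp [h])
    have n4 : t k ≠ t l := fun h => hne 1 1 (by simp [h])
    have d1 := hd _ _ n1
    have d2 := hd _ _ n2
    have d3 := hd _ _ n3
    have d4 := hd _ _ n4
    have : ((n (s k) l + n (t l) k + d (t k) (t l) - d (s k) (t l) : ℤ) : ℂ) =
        ((n (s l) k + n (t k) l + d (t k) (s l) - d (s k) (s l) : ℤ) : ℂ) := by
      apply mul_right_cancel₀ hpi
      push_cast
      linear_combination - e1 - e4 + e3 + e2 - d4 + d2 + d3 - d1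
    exact_mod_cast this

end Pool.Agent.Lib.MP_0c0e10_co
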