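import Pool.Agent.Lib.MP_0c0e10_co.Defs
import Pool.Agent.Lib.MP_0c0e10_co.VanKampen
import Pool.Agent.Lib.MP_0c0e10_co.Parity

/-!
The graph and the lower bound 7 for its crossing number.
-/

set_option autoImplicit false
open Set

namespace Pool.Agent.Lib.MP_0c0e10_co

section General
variable {V : Type} {G : SimpleGraph V} (D : Drawing G)

lemma exists_path (e : G.edgeSet) {a b : V} (h : e.1 = s(a, b)) :
    ∃ P : Path (D.pos a) (D.pos b), range P = range (D.arc e) := by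
  have h1 := D.arc_ends e
  rw [h, Sym2.map_mk, Sym2.eq_iff] at h1
  rcases h1 with ⟨h1, h2⟩ | ⟨h1, h2⟩
  · exact ⟨⟨⟨D.arc e, D.arc_cont e⟩, h1, h2⟩, rfl⟩
  · exact ⟨(⟨⟨D.arc e, D.arc_cont e⟩, h1, h2⟩ : Path (D.pos b) (D.pos a)).symm,
      Path.symm_range _⟩

lemma end_vertex (e : G.edgeSet) {t : unitInterval} (ht : t = 0 ∨ t = 1) :
    ∃ v ∈ e.1, D.arc e t = D.pos v := by
  have h1 : D.arc e t ∈ e.1.map D.pos := by
    rw [← D.arc_ends e]
    rcases ht with rfl | rfl <;> simp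
  obtain ⟨v, hv, h⟩ := Sym2.mem_map.1 h1
  exact ⟨v, hv, h.symm⟩

lemma vertex_mem (e : G.edgeSet) {v : V} (h : D.pos v ∈ range (D.arc e)) : v ∈ e.1 := by
  obtain ⟨t, ht⟩ := h
  obtain ⟨w, hw, h2⟩ := end_vertex D e (D.arc_avoid e t v ht)
  rwa [D.pos_inj (ht.symm.trans h2)]

lemma mem_Ioo_of_ne {t : unitInterval} (h : ¬ (t = 0 ∨ t = 1)) : t ∈ Ioo (0 : unitInterval) 1 := by
  push Not at h
  exact ⟨lt_of_le_of_ne bot_le h.1.symm, lt_of_le_of_ne le_top h.2⟩

/-- two edges have a common interior point -/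
def Cr (e f : G.edgeSet) : Prop := ∃ p, p ∈ D.arc e '' Ioo 0 1 ∧ p ∈ D.arc f '' Ioo 0 1

lemma disjoint_of (e f : G.edgeSet) (h1 : ∀ v ∈ e.1, v ∉ f.1) (h2 : ¬ Cr D e f) :
    Disjoint (range (D.arc e)) (range (D.arc f)) := by
  rw [disjoint_left]
  rintro _ ⟨s, rfl⟩ ⟨t, ht⟩
  by_cases hs : s = 0 ∨ s = 1
  · obtain ⟨v, hv, h⟩ := end_vertex D e hs
    exact h1 v hv (vertex_mem D f ⟨t, ht.trans h⟩)
  by_cases ht' : t = 0 ∨ t = 1
  · obtain ⟨v, hv, h⟩ := end_vertex D f ht'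
    exact h1 v (vertex_mem D e ⟨s, ht.symm.trans h⟩) hv
  exact h2 ⟨_, ⟨s, mem_Ioo_of_ne hs, rfl⟩, ⟨t, mem_Ioo_of_ne ht', ht⟩⟩

/-- the set of crossings -/
def crSet : Set (Sym2 G.edgeSet × ℂ) :=
  {x | ¬ x.1.IsDiag ∧ ∀ e ∈ x.1, x.2 ∈ D.arc e '' Ioo 0 1}

lemma mem_crSet {e f : G.edgeSet} {p : ℂ} : (s(e, f), p) ∈ crSet D ↔
    e ≠ f ∧ p ∈ D.arc e '' Ioo 0 1 ∧ p ∈ D.arc f '' Ioo 0 1 := by
  simp only [crSet, mem_ofPred_eq, Sym2.mk_isDiag_iff, Sym2.mem_iff, forall_eq_or_imp, forall_eq,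
    ne_eq]

lemma crSet_finite [Finite V] : (crSet D).Finite := by
  have : crSet D ⊆ ⋃ e, ⋃ f, ⋃ (_ : e ≠ f),
      (fun p => (s(e, f), p)) '' (range (D.arc e) ∩ range (D.arc f)) := by
    rintro ⟨x, p⟩ hx
    induction x using Sym2.ind with
    | _ e f =>
      obtain ⟨h1, h2, h3⟩ := (mem_crSet D).1 hx
      simp only [mem_iUnion]
      exact ⟨e, f, h1, p, ⟨image_subset_range _ _ h2, image_subset_range _ _ h3⟩, rfl⟩
  refine Finite.subset ?_ this
  exact finite_iUnion fun e => finite_iUnion fun f => finite_iUnion fun h =>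
    (D.finite_inter e f h).image _

end General

abbrev VV : Type := Fin 7 ⊕ (Fin 10 × Fin 7)
abbrev EE : Type := Fin 8 ⊕ (Fin 10 × Fin 7 × Bool)

def e1 : EE → VV
  | .inl k => .inl (rs (Fin.natAdd 10 k))
  | .inr (i, _, false) => .inl (rs (Fin.castAdd 8 i))
  | .inr (i, j, true) => .inr (i, j)

def e2 : EE → VV
  | .inl k => .inl (rt (Fin.natAdd 10 k))
  | .inr (i, j, false) => .inr (i, j)
  | .inr (i, _, true) => .inl (rt (Fin.castAdd 8 i))

def ed (k : EE) : Sym2 VV := s(e1 k, e2 k)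

lemma e1_ne_e2 : ∀ k, e1 k ≠ e2 k := by decide +kernel

lemma ed_inj : Function.Injective ed := by
  have h : ∀ k l : EE, ((e1 k = e1 l ∧ e2 k = e2 l) ∨ (e1 k = e2 l ∧ e2 k = e1 l)) → k = l := by
    decide +kernel
  intro k l hkl
  exact h k l (Sym2.eq_iff.1 hkl)

def GG : SimpleGraph VV := SimpleGraph.fromEdgeSet (range ed)

def eE (k : EE) : GG.edgeSet :=
  ⟨ed k, by
    rw [GG, SimpleGraph.edgeSet_fromEdgeSet]
    exact ⟨⟨k, rfl⟩, fun h => e1_ne_e2 k (Sym2.mk_isDiag_iff.1 h)⟩⟩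

lemma eE_inj : Function.Injective eE := fun _ _ h => ed_inj (congrArg Subtype.val h)

lemma eE_surj : Function.Surjective eE := by
  rintro ⟨e, he⟩
  simp only [GG, SimpleGraph.edgeSet_fromEdgeSet, mem_sdiff, mem_range] at he
  obtain ⟨⟨k, rfl⟩, -⟩ := he
  exact ⟨k, rfl⟩

lemma mem_eE {k : EE} {v : VV} : v ∈ (eE k).1 ↔ v = e1 k ∨ v = e2 k := by
  simp [eE, ed]

/-- the edges of the big graph that make up an edge of the reduced graph -/
def parts (J : Fin 10 → Fin 7) (k : Fin 18) : List EE :=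
  Fin.addCases (m := 10) (n := 8) (motive := fun _ => List EE)
    (fun i => [.inr (i, J i, false), .inr (i, J i, true)]) (fun a => [.inl a]) k

lemma parts_indep (J : Fin 10 → Fin 7) (k l : Fin 18) (h : Indep k l) :
    ∀ a ∈ parts J k, ∀ b ∈ parts J l, ∀ v ∈ (eE a).1, v ∉ (eE b).1 := by
  have hkl : k ≠ l := fun e => h.1 (e ▸ rfl)
  obtain ⟨h1, h2, h3, h4⟩ := h
  induction k using Fin.addCases (m := 10) (n := 8) with
  | left i =>
    induction l using Fin.addCases (m := 10) (n := 8) with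
    | left i' =>
      have : i ≠ i' := fun e => hkl (e ▸ rfl)
      simp [parts, mem_eE, e1, e2, *]
    | right a => simp [parts, mem_eE, e1, e2, *]
  | right a =>
    induction l using Fin.addCases (m := 10) (n := 8) with
    | left i' => simp [parts, mem_eE, e1, e2, *]
    | right a => simp [parts, mem_eE, e1, e2, *]

theorem lower_bound (D : Drawing GG) : 7 ≤ crossings D := by
  classical
  by_contra hlt
  have hfin := crSet_finite D
  have hle : (crSet D).ncard ≤ 6 := by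
    have : crossings D = (crSet D).ncard := rfl
    omega
  have hκ : ∀ x : Sym2 GG.edgeSet × ℂ, ∃ q : Fin 10 × Fin 7,
      (∃ i j b, eE (.inr (i, j, b)) ∈ x.1) → ∃ b, eE (.inr (q.1, q.2, b)) ∈ x.1 := by
    intro x
    by_cases h : ∃ i j b, eE (.inr (i, j, b)) ∈ x.1
    · obtain ⟨i, j, b, h⟩ := h
      exact ⟨(i, j), fun _ => ⟨b, h⟩⟩
    · exact ⟨(0, 0), fun h' => absurd h' h⟩
  choose κ hκ using hκ
  have hJ : ∀ i, ∃ j, (i, j) ∉ κ '' crSet D := by
    intro i
    by_contra hc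
    push Not at hc
    have h1 : (univ : Set (Fin 7)).ncard ≤ (κ '' crSet D).ncard :=
      ncard_le_ncard_of_injOn (fun j => (i, j)) (fun j _ => hc j)
        (fun _ _ _ _ h => (Prod.ext_iff.1 h).2) (hfin.image _)
    have h2 := ncard_image_le (f := κ) hfin
    simp at h1
    omega
  choose J hJ using hJ
  have hno : ∀ k l : Fin 18, k.val < 10 → k ≠ l → ∀ a ∈ parts J k, ∀ b ∈ parts J l, a ≠ b →
      ¬ Cr D (eE a) (eE b) := by
    rintro k l hk hkl a ha b hb hab ⟨p, hp1, hp2⟩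
    have hx : (s(eE a, eE b), p) ∈ crSet D := (mem_crSet D).2 ⟨eE_inj.ne hab, hp1, hp2⟩
    have hpart : ∀ (m : Fin 18) (i j c), Sum.inr (i, j, c) ∈ parts J m → j = J i := by
      intro m i j c hm
      induction m using Fin.addCases (m := 10) (n := 8) with
      | left i' =>
        simp only [parts, Fin.addCases_left, List.mem_cons, Sum.inr.injEq, Prod.mk.injEq,
          List.not_mem_nil, or_false] at hm
        rcases hm with ⟨rfl, rfl, -⟩ | ⟨rfl, rfl, -⟩ <;> rfl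
      | right a => simp [parts] at hm
    have hh : ∃ i j c, eE (.inr (i, j, c)) ∈ (s(eE a, eE b), p).1 := by
      induction k using Fin.addCases (m := 10) (n := 8) with
      | left i =>
        simp only [parts, Fin.addCases_left, List.mem_cons, List.not_mem_nil, or_false] at ha
        rcases ha with rfl | rfl
        · exact ⟨_, _, _, Sym2.mem_mk_left _ _⟩
        · exact ⟨_, _, _, Sym2.mem_mk_left _ _⟩
      | right a => simp at hk
    obtain ⟨c, hc⟩ := hκ _ hh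
    have hj : (κ (s(eE a, eE b), p)).2 = J (κ (s(eE a, eE b), p)).1 := by
      rcases Sym2.mem_iff.1 hc with h | h
      · exact hpart k _ _ c ((eE_inj h).symm ▸ ha :)
      · exact hpart l _ _ c ((eE_inj h).symm ▸ hb :)
    exact hJ (κ (s(eE a, eE b), p)).1 ⟨_, hx, Prod.ext rfl hj⟩
  have hP : ∀ k : Fin 18, ∃ P : Path (D.pos (.inl (rs k))) (D.pos (.inl (rt k))),
      ∀ z ∈ range P, ∃ a ∈ parts J k, z ∈ range (D.arc (eE a)) := by
    intro k
    induction k using Fin.addCases (m := 10) (n := 8) with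
    | left i =>
      obtain ⟨P1, h1⟩ := exists_path D (eE (.inr (i, J i, false)))
        (a := .inl (rs (Fin.castAdd 8 i))) (b := .inr (i, J i)) rfl
      obtain ⟨P2, h2⟩ := exists_path D (eE (.inr (i, J i, true)))
        (a := .inr (i, J i)) (b := .inl (rt (Fin.castAdd 8 i))) rfl
      refine ⟨P1.trans P2, fun z hz => ?_⟩
      rw [Path.trans_range, h1, h2] at hz
      rcases hz with hz | hz
      · exact ⟨_, by simp [parts], hz⟩
      · exact ⟨_, by simp [parts], hz⟩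
    | right a =>
      obtain ⟨P1, h1⟩ := exists_path D (eE (.inl a)) rfl
      exact ⟨P1, fun z hz => ⟨_, by simp [parts], h1 ▸ hz⟩⟩
  choose P hP using hP
  obtain ⟨n, d, hd, hrel⟩ := vanKampen (fun v => D.pos (.inl v))
    (D.pos_inj.comp Sum.inl_injective) rs rt P
  have hdis : ∀ k l : Fin 18, Indep k l →
      (∀ a ∈ parts J k, ∀ b ∈ parts J l, a ≠ b → ¬ Cr D (eE a) (eE b)) → Rel n d k l := by
    intro k l hi h
    apply hrel
    rw [disjoint_left]
    intro z h1 h2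
    obtain ⟨a, ha, h1⟩ := hP k z h1
    obtain ⟨b, hb, h2⟩ := hP l z h2
    have hv := parts_indep J k l hi a ha b hb
    have hab : a ≠ b := by
      rintro rfl
      exact hv _ (mem_eE.2 (Or.inl rfl)) (mem_eE.2 (Or.inl rfl))
    exact disjoint_left.1 (disjoint_of D _ _ hv (h a ha b hb hab)) h1 h2
  have hcl := clauses n d hd (fun k l hk hi =>
    hdis k l hi (hno k l hk (fun e => hi.1 (e ▸ rfl))))
  have hind : ∀ m b, Indep (Fin.natAdd 10 (cl m b).1) (Fin.natAdd 10 (cl m b).2) := by decide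
  have hcr : ∀ m, ∃ b p, (s(eE (.inl (cl m b).1), eE (.inl (cl m b).2)), p) ∈ crSet D := by
    intro m
    obtain ⟨b, hb⟩ := hcl m
    by_contra hc
    push Not at hc
    refine hb (hdis _ _ (hind m b) ?_)
    simp only [parts, Fin.addCases_right, List.mem_singleton, forall_eq]
    rintro hab ⟨p, h1, h2⟩
    exact hc b p ((mem_crSet D).2 ⟨eE_inj.ne hab, h1, h2⟩)
  choose b p hbp using hcr
  have hinj : ∀ m b m' b', (((cl m b).1 = (cl m' b').1 ∧ (cl m b).2 = (cl m' b').2) ∨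
      ((cl m b).1 = (cl m' b').2 ∧ (cl m b).2 = (cl m' b').1)) → m = m' := by decide
  have h1 : (univ : Set (Fin 7)).ncard ≤ (crSet D).ncard := by
    refine ncard_le_ncard_of_injOn _ (fun m _ => hbp m) (fun m _ m' _ h => ?_) hfin
    have h2 := (Prod.ext_iff.1 h).1
    simp only [Sym2.eq_iff, eE_inj.eq_iff, Sum.inl.injEq] at h2
    exact hinj _ _ _ _ h2
  simp at h1
  omega

end Pool.Agent.Lib.MP_0c0e10_co
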