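import Pool.Agent.Lib.MP_0c0e10_co.Check

/-!
The drawing with seven crossings; it is not separable at the edge number 0.
-/

set_option autoImplicit false
open Set

namespace Pool.Agent.Lib.MP_0c0e10_co

noncomputable def pth (k : EE) : Path (toC (pt (e1 k))) (toC (pt (e2 k))) :=
  (Path.segment (toC (pt (e1 k))) (toC (bend k))).trans
    (Path.segment (toC (bend k)) (toC (pt (e2 k))))

lemma range_pth (k : EE) :
    range (pth k) = sg (pt (e1 k)) (bend k) ∪ sg (pt (e2 k)) (bend k) := by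
  rw [pth, Path.trans_range, Path.range_segment, Path.range_segment, sg_symm (pt (e2 k))]
  rfl

lemma shared_ne {m a b : Pt} (h : shared m a m b = true) : a ≠ m ∧ m ≠ b := by
  constructor
  · rintro rfl
    simp [shared, ori] at h
  · rintro rfl
    simp [shared, ori] at h

lemma pth_inj (k : EE) : Function.Injective (pth k) := by
  obtain ⟨h1, h2⟩ := shared_ne (check_self k)
  refine trans_inj _ _ (Path.segment_injective_of_ne (toC_inj.ne h1))
    (Path.segment_injective_of_ne (toC_inj.ne h2)) ?_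
  rw [Path.range_segment, Path.range_segment, segment_symm]
  exact shared_spec (check_self k)

lemma pth_avoid (k : EE) (t : unitInterval) (v : VV) (h : pth k t = toC (pt v)) :
    t = 0 ∨ t = 1 := by
  rcases check_vert k v with rfl | rfl | hv
  · exact Or.inl (pth_inj k (h.trans (pth k).source.symm))
  · exact Or.inr (pth_inj k (h.trans (pth k).target.symm))
  · exfalso
    rw [Bool.and_eq_true] at hv
    have : toC (pt v) ∈ range (pth k) := ⟨t, h⟩
    rw [range_pth] at this
    rcases this with h1 | h1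
    · exact disjoint_left.1 (disj_spec hv.1) (left_mem_sg _ _) h1
    · exact disjoint_left.1 (disj_spec hv.2) (left_mem_sg _ _) h1

lemma ds_spec {a b c d : Pt} (h : ds a b c d = true) : sg a b ∩ sg c d ⊆ {toC a} := by
  rw [ds, Bool.or_eq_true] at h
  rcases h with h | h
  · rw [(disj_spec h).inter_eq]
    exact empty_subset _
  · exact shared_spec h

lemma good0_spec {a m b c n d : Pt} (h : good0 a m b c n d = true) :
    (sg a m ∪ sg b m) ∩ (sg c n ∪ sg d n) ⊆ {toC a, toC b} := by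
  simp only [good0, Bool.and_eq_true] at h
  obtain ⟨⟨⟨h1, h2⟩, h3⟩, h4⟩ := h
  rintro z ⟨k1 | k1, k2 | k2⟩
  · exact Or.inl (ds_spec h1 ⟨k1, k2⟩)
  · exact Or.inl (ds_spec h2 ⟨k1, k2⟩)
  · exact Or.inr (ds_spec h3 ⟨k1, k2⟩)
  · exact Or.inr (ds_spec h4 ⟨k1, k2⟩)

/-- at most one common point, which is a proper crossing -/
def Once (A B : Set ℂ) : Prop := (A ∩ B).Subsingleton ∧ ∀ p ∈ A ∩ B, Crossing A B p

lemma one_spec {a m b c n d : Pt} (h : one a m b c n d = true) :
    Once (sg a m ∪ sg b m) (sg c n ∪ sg d n) := by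
  simp only [one, Bool.and_eq_true] at h
  obtain ⟨⟨⟨h1, h2⟩, h3⟩, h4⟩ := h
  have key : ∀ z ∈ (sg a m ∪ sg b m) ∩ (sg c n ∪ sg d n), z ∈ sg a m ∩ sg c n := by
    rintro z ⟨k1 | k1, k2 | k2⟩
    · exact ⟨k1, k2⟩
    · exact absurd k2 (disjoint_left.1 (disj_spec h2) k1)
    · exact absurd k2 (disjoint_left.1 (disj_spec h3) k1)
    · exact absurd k2 (disjoint_left.1 (disj_spec h4) k1)
  refine ⟨(cross_sub h1).anti key, fun p hp => ?_⟩
  obtain ⟨k1, k2⟩ := key p hp
  exact cross_crossing h1 (sg_closed _ _) (sg_closed _ _) k1 k2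
    (fun k => disjoint_left.1 (disj_spec h3) k k2) (disjoint_left.1 (disj_spec h2) k1)

lemma good1_spec {a m b c n d : Pt} (h : good1 a m b c n d = true) :
    Once (sg a m ∪ sg b m) (sg c n ∪ sg d n) := by
  simp only [good1, Bool.or_eq_true] at h
  rcases h with ((h | h) | h) | h
  · exact one_spec h
  · rw [union_comm (sg c n)]
    exact one_spec h
  · rw [union_comm (sg a m)]
    exact one_spec h
  · rw [union_comm (sg a m), union_comm (sg c n)]
    exact one_spec h

lemma pair_spec {k l : EE} (h : k ≠ l) :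
    range (pth k) ∩ range (pth l) ⊆ {toC (pt (e1 k)), toC (pt (e2 k))} ∨
      (isPair k l = true ∧ Once (range (pth k)) (range (pth l))) := by
  rw [range_pth, range_pth]
  rcases check_pair k l with e | e | e
  · exact absurd e h
  · exact Or.inl (good0_spec e)
  · rw [Bool.and_eq_true] at e
    exact Or.inr ⟨e.1, good1_spec e.2⟩

lemma inner_spec {k l : EE} (h : k ≠ l) {p : ℂ} (h1 : p ∈ pth k '' Ioo 0 1)
    (h2 : p ∈ pth l '' Ioo 0 1) : isPair k l = true ∧ Once (range (pth k)) (range (pth l)) := by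
  rcases pair_spec h with e | e
  · exfalso
    have := e ⟨image_subset_range _ _ h1, image_subset_range _ _ h2⟩
    obtain ⟨t, ht, rfl⟩ := h1
    rcases this with e | e
    · exact ht.1.ne' (pth_inj k (e.trans (pth k).source.symm))
    · exact ht.2.ne (pth_inj k (Eq.trans e (pth k).target.symm))
  · exact e

noncomputable def idx : GG.edgeSet → EE := Function.surjInv eE_surj

lemma eE_idx (e : GG.edgeSet) : eE (idx e) = e := Function.surjInv_eq eE_surj e

lemma idx_eE (k : EE) : idx (eE k) = k := eE_inj (eE_idx _)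

lemma idx_ne {e f : GG.edgeSet} (h : e ≠ f) : idx e ≠ idx f :=
  (Function.injective_surjInv eE_surj).ne h

/-- the drawing -/
noncomputable def D0 : Drawing GG where
  pos v := toC (pt v)
  arc e := pth (idx e)
  pos_inj := toC_inj.comp pt_inj
  arc_cont e := (pth _).continuous
  arc_inj e := pth_inj _
  arc_ends e := by
    have : e.1 = ed (idx e) := congrArg Subtype.val (eE_idx e).symm
    rw [this, ed, Sym2.map_mk, Path.source, Path.target]
  arc_avoid e t v h := pth_avoid _ t v h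
  finite_inter e f h := by
    rcases pair_spec (idx_ne h) with k | k
    · exact (toFinite _).subset k
    · exact k.2.1.finite
  proper e f h p hp := (inner_spec (idx_ne h) hp.1 hp.2).2.2 p
    ⟨image_subset_range _ _ hp.1, image_subset_range _ _ hp.2⟩

lemma upper_bound : crossings D0 ≤ 7 := by
  classical
  let T : Finset (Sym2 GG.edgeSet) :=
    (pairs.map fun x => s(eE (.inl x.1), eE (.inl x.2))).toFinset
  have hT : (T : Set (Sym2 GG.edgeSet)).ncard ≤ 7 := by
    rw [ncard_coe_finset]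
    refine (List.toFinset_card_le _).trans ?_
    simp [pairs]
  refine le_trans (ncard_le_ncard_of_injOn (s := crSet D0) Prod.fst ?_ ?_ T.finite_toSet) hT
  · rintro ⟨x, p⟩ hx
    induction x using Sym2.ind with
    | _ e f =>
      obtain ⟨h1, h2, h3⟩ := (mem_crSet D0).1 hx
      have h := (inner_spec (idx_ne h1) h2 h3).1
      rw [← eE_idx e, ← eE_idx f]
      generalize idx e = k at h
      generalize idx f = l at h
      simp only [T, List.coe_toFinset, mem_ofPred_eq, List.mem_map]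
      rcases k with a | a <;> rcases l with b | b <;>
        simp only [isPair, Bool.or_eq_true, decide_eq_true_eq, Bool.false_eq_true] at h
      rcases h with h | h
      · exact ⟨_, h, rfl⟩
      · exact ⟨_, h, Sym2.eq_swap⟩
  · rintro ⟨x, p⟩ hx ⟨y, q⟩ hy hxy
    simp only at hxy
    subst hxy
    induction x using Sym2.ind with
    | _ e f =>
      obtain ⟨h1, h2, h3⟩ := (mem_crSet D0).1 hx
      obtain ⟨-, h4, h5⟩ := (mem_crSet D0).1 hy
      have h := (inner_spec (idx_ne h1) h2 h3).2.1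
      rw [h ⟨image_subset_range _ _ h2, image_subset_range _ _ h3⟩
        ⟨image_subset_range _ _ h4, image_subset_range _ _ h5⟩]

lemma no_triangle : ∀ k l m, ¬ (isPair k l = true ∧ isPair l m = true ∧ isPair k m = true) := by
  rintro (a | a) (b | b) (c | c) <;> simp only [isPair, Bool.false_eq_true, false_and, and_false,
    not_false_eq_true]
  revert a b c
  decide +kernel

lemma no_triple (e f g : GG.edgeSet) (h1 : e ≠ f) (h2 : f ≠ g) (h3 : e ≠ g) :
    D0.arc e '' Ioo 0 1 ∩ D0.arc f '' Ioo 0 1 ∩ D0.arc g '' Ioo 0 1 = ∅ := by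
  rw [eq_empty_iff_forall_notMem]
  rintro p ⟨⟨k1, k2⟩, k3⟩
  exact no_triangle _ _ _ ⟨(inner_spec (idx_ne h1) k1 k2).1, (inner_spec (idx_ne h2) k2 k3).1,
    (inner_spec (idx_ne h3) k1 k3).1⟩

lemma range_arc (a : Fin 8) : range (D0.arc (eE (.inl a))) =
    sg (pt (e1 (.inl a))) (lb a) ∪ sg (pt (e2 (.inl a))) (lb a) := by
  change range (pth (idx (eE (.inl a)))) = _
  rw [idx_eE, range_pth]
  rfl

lemma r0 : range (D0.arc (eE (.inl 0))) =
    sg (0, -200) (200, -100) ∪ sg (800, 200) (200, -100) := range_arc 0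
lemma r1 : range (D0.arc (eE (.inl 1))) =
    sg (-400, 0) (-200, 0) ∪ sg (1200, 0) (-200, 0) := range_arc 1
lemma r2 : range (D0.arc (eE (.inl 2))) =
    sg (0, -200) (0, 2000) ∪ sg (-2000, 0) (0, 2000) := range_arc 2
lemma r3 : range (D0.arc (eE (.inl 3))) =
    sg (800, 200) (800, -2000) ∪ sg (-2000, 0) (800, -2000) := range_arc 3

/-- positive inside, negative outside a pentagon bounded by pieces of the edges 1, 2, 3 -/
noncomputable def Phi (z : ℂ) : ℝ :=
  min (min (z.re + 2000 - z.im) (7 * z.im + 5 * z.re + 10000))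
    (min (800 - z.re) (max (-z.re) (-z.im)))

lemma Phi_cont : Continuous Phi := by
  unfold Phi
  fun_prop

lemma Phi_zero {z : ℂ} (h : Phi z = 0) : z ∈ range (D0.arc (eE (.inl 1))) ∨
    z ∈ range (D0.arc (eE (.inl 2))) ∨ z ∈ range (D0.arc (eE (.inl 3))) := by
  rw [r1, r2, r3]
  have h0 : 0 ≤ Phi z := h.ge
  simp only [Phi, le_min_iff, le_max_iff] at h0
  obtain ⟨⟨a1, a2⟩, a3, a4⟩ := h0
  simp only [Phi, min_eq_iff, max_eq_iff] at h
  have c1 : z.re + 2000 - z.im = 0 → z ∈ sg (-2000, 0) (0, 2000) := fun e =>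
    mem_sg.2 ⟨(z.re + 2000) / 2000, by linarith, by rcases a4 with a4 | a4 <;> linarith,
      by push_cast; linarith, by push_cast; linarith⟩
  have c2 : 7 * z.im + 5 * z.re + 10000 = 0 → z ∈ sg (-2000, 0) (800, -2000) := fun e =>
    mem_sg.2 ⟨(z.re + 2000) / 2800, by linarith, by linarith,
      by push_cast; linarith, by push_cast; linarith⟩
  have c3 : 800 - z.re = 0 → z ∈ sg (800, 200) (800, -2000) := fun e =>
    mem_sg.2 ⟨(200 - z.im) / 2200, by rcases a4 with a4 | a4 <;> linarith, by linarith,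
      by push_cast; linarith, by push_cast; linarith⟩
  have c4 : -z.re = 0 → -z.im ≤ 0 → z ∈ sg (0, -200) (0, 2000) := fun e e' =>
    mem_sg.2 ⟨(z.im + 200) / 2200, by linarith, by linarith,
      by push_cast; linarith, by push_cast; linarith⟩
  have c5 : -z.im = 0 → -z.re ≤ 0 → z ∈ sg (1200, 0) (-200, 0) := fun e e' =>
    mem_sg.2 ⟨(1200 - z.re) / 1400, by linarith, by linarith,
      by push_cast; linarith, by push_cast; linarith⟩
  rcases h with ⟨⟨e, -⟩ | ⟨e, -⟩, -⟩ | ⟨⟨e, -⟩ | ⟨⟨e, e'⟩ | ⟨e, e'⟩, -⟩, -⟩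
  · exact Or.inr (Or.inl (Or.inr (c1 e)))
  · exact Or.inr (Or.inr (Or.inr (c2 e)))
  · exact Or.inr (Or.inr (Or.inl (c3 e)))
  · exact Or.inr (Or.inl (Or.inl (c4 e (e'.trans e.le))))
  · exact Or.inl (Or.inr (c5 e (e'.trans e.le)))

theorem not_sep : ¬ ∃ γ : Circle → ℂ, Continuous γ ∧ Function.Injective γ ∧
    range (D0.arc (eE (.inl 0))) ⊆ range γ ∧
      ∀ f ≠ eE (.inl 0), (range γ ∩ range (D0.arc f)).Subsingleton := by
  rintro ⟨γ, hc, hi, hs, hf⟩
  rw [r0] at hs
  have hr0 : toC (400, 0) ∈ sg (800, 200) (200, -100) :=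
    mem_sg.2 ⟨2 / 3, by norm_num, by norm_num, by norm_num [toC], by norm_num [toC]⟩
  have hr1 : toC (400, 0) ∈ sg (1200, 0) (-200, 0) :=
    mem_sg.2 ⟨4 / 7, by norm_num, by norm_num, by norm_num [toC], by norm_num [toC]⟩
  obtain ⟨θ, hθ⟩ := hs (Or.inr hr0)
  obtain ⟨α, hα⟩ := hs (Or.inl (left_mem_sg _ _))
  obtain ⟨β, hβ⟩ := hs (Or.inr (left_mem_sg _ _))
  have pu : Phi (γ α) = 200 := by rw [hα]; norm_num [Phi, toC]
  have pv : Phi (γ β) = -200 := by rw [hβ]; norm_num [Phi, toC]
  have pr : Phi (γ θ) = 0 := by rw [hθ]; norm_num [Phi, toC]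
  have ha : α ∈ ({θ}ᶜ : Set Circle) := by
    rintro rfl
    linarith
  have hb : β ∈ ({θ}ᶜ : Set Circle) := by
    rintro rfl
    linarith
  obtain ⟨x, hx, hx0⟩ := (Circle.isPathConnected_compl_singleton θ).isConnected.isPreconnected.intermediate_value
    hb ha (Phi_cont.comp hc).continuousOn
    (show (0 : ℝ) ∈ Icc ((Phi ∘ γ) β) ((Phi ∘ γ) α) by
      simp only [Function.comp, pu, pv]; norm_num)
  simp only [Function.comp] at hx0
  rcases Phi_zero hx0 with h | h | h
  · have := hf _ (eE_inj.ne (by decide)) ⟨⟨x, rfl⟩, h⟩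
      ⟨⟨θ, hθ⟩, by rw [r1]; exact Or.inr hr1⟩
    exact hx (hi (this.trans hθ.symm))
  · have := hf _ (eE_inj.ne (by decide)) ⟨⟨x, rfl⟩, h⟩
      ⟨⟨α, hα⟩, by rw [r2]; exact Or.inl (left_mem_sg _ _)⟩
    rw [this, ← hα] at hx0
    linarith
  · have := hf _ (eE_inj.ne (by decide)) ⟨⟨x, rfl⟩, h⟩
      ⟨⟨β, hβ⟩, by rw [r3]; exact Or.inl (left_mem_sg _ _)⟩
    rw [this, ← hβ] at hx0
    linarith

end Pool.Agent.Lib.MP_0c0e10_co
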